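import Mathlib
import Pool.Agent.H469R10.HO.Stmts2

set_option autoImplicit false

open Real Complex MeasureTheory Set Filter Topology Asymptotics
open scoped Nat

namespace Pool.Agent.H144R3.T469F

/-! ### lower bound for the Gamma function -/

lemma norm_one_add_le (w : ℂ) : ‖1 + w‖ ≤ Real.exp (w.re + ‖w‖ ^ 2 / 2) := by
  have h1 : ‖1 + w‖ ^ 2 ≤ (Real.exp (w.re + ‖w‖ ^ 2 / 2)) ^ 2 := by
    rw [← Real.exp_nat_mul]
    have e1 : ‖1 + w‖ ^ 2 = 1 + 2 * w.re + ‖w‖ ^ 2 := by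
      rw [Complex.sq_norm, Complex.sq_norm, Complex.normSq_apply, Complex.normSq_apply]
      simp
      ring
    rw [e1]
    have := Real.add_one_le_exp (2 * w.re + ‖w‖ ^ 2)
    have e2 : ((2 : ℕ) : ℝ) * (w.re + ‖w‖ ^ 2 / 2) = 2 * w.re + ‖w‖ ^ 2 := by
      push_cast; ring
    rw [e2]
    linarith
  exact le_of_sq_le_sq h1 (Real.exp_pos _).le

lemma norm_prod_le (z : ℂ) (n : ℕ) :
    ‖∏ j ∈ Finset.range (n + 1), (z + j)‖ ≤
      ‖z‖ * n ! * Real.exp (z.re * (∑ j ∈ Finset.range n, ((j : ℝ) + 1)⁻¹)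
        + ‖z‖ ^ 2 / 2 * ∑ j ∈ Finset.range n, (((j : ℝ) + 1) ^ 2)⁻¹) := by
  induction n with
  | zero => simp
  | succ n ih =>
    rw [Finset.prod_range_succ, norm_mul]
    have hn : ((n : ℝ) + 1) ≠ 0 := by positivity
    have hn' : ((n : ℂ) + 1) ≠ 0 := by exact_mod_cast Nat.succ_ne_zero n
    have e1 : z + ((n + 1 : ℕ) : ℂ) = ((n : ℂ) + 1) * (1 + z / ((n : ℂ) + 1)) := by
      push_cast
      field_simp
      ring
    have e2 : ‖z + ((n + 1 : ℕ) : ℂ)‖ ≤ ((n : ℝ) + 1) *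
        Real.exp (z.re * ((n : ℝ) + 1)⁻¹ + ‖z‖ ^ 2 / 2 * (((n : ℝ) + 1) ^ 2)⁻¹) := by
      rw [e1, norm_mul]
      have h1 : ‖(n : ℂ) + 1‖ = (n : ℝ) + 1 := by
        have : (n : ℂ) + 1 = ((n + 1 : ℕ) : ℂ) := by push_cast; ring
        rw [this, Complex.norm_natCast]
        push_cast; ring
      rw [h1]
      refine mul_le_mul_of_nonneg_left ?_ (by positivity)
      refine (norm_one_add_le _).trans (Real.exp_le_exp.2 ?_)
      have h2 : (z / ((n : ℂ) + 1)).re = z.re * ((n : ℝ) + 1)⁻¹ := by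
        have : (n : ℂ) + 1 = (((n : ℝ) + 1 : ℝ) : ℂ) := by push_cast; ring
        rw [this, Complex.div_ofReal_re, div_eq_mul_inv]
      have h3 : ‖z / ((n : ℂ) + 1)‖ ^ 2 / 2 = ‖z‖ ^ 2 / 2 * (((n : ℝ) + 1) ^ 2)⁻¹ := by
        rw [norm_div, h1]
        field_simp
      rw [h2, h3]
    calc ‖∏ x ∈ Finset.range (n + 1), (z + ↑x)‖ * ‖z + ((n + 1 : ℕ) : ℂ)‖
        ≤ (‖z‖ * n ! * Real.exp (z.re * (∑ j ∈ Finset.range n, ((j : ℝ) + 1)⁻¹)
        + ‖z‖ ^ 2 / 2 * ∑ j ∈ Finset.range n, (((j : ℝ) + 1) ^ 2)⁻¹)) * (((n : ℝ) + 1) *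
        Real.exp (z.re * ((n : ℝ) + 1)⁻¹ + ‖z‖ ^ 2 / 2 * (((n : ℝ) + 1) ^ 2)⁻¹)) :=
          mul_le_mul ih e2 (norm_nonneg _) (by positivity)
      _ = _ := by
        rw [Finset.sum_range_succ, Finset.sum_range_succ]
        have : z.re * (∑ j ∈ Finset.range n, ((j : ℝ) + 1)⁻¹ + ((n : ℝ) + 1)⁻¹)
          + ‖z‖ ^ 2 / 2 * (∑ j ∈ Finset.range n, (((j : ℝ) + 1) ^ 2)⁻¹ + (((n : ℝ) + 1) ^ 2)⁻¹)
          = (z.re * (∑ j ∈ Finset.range n, ((j : ℝ) + 1)⁻¹)
            + ‖z‖ ^ 2 / 2 * ∑ j ∈ Finset.range n, (((j : ℝ) + 1) ^ 2)⁻¹) +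
            (z.re * ((n : ℝ) + 1)⁻¹ + ‖z‖ ^ 2 / 2 * (((n : ℝ) + 1) ^ 2)⁻¹) := by ring
        have key : ∀ A B : ℝ, ‖z‖ * n ! * Real.exp A * (((n : ℝ) + 1) * Real.exp B)
            = ‖z‖ * ((n + 1)! : ℕ) * Real.exp (A + B) := by
          intro A B
          rw [Real.exp_add, Nat.factorial_succ]
          push_cast
          ring
        rw [this]
        exact key _ _

lemma sum_inv_sq_le (n : ℕ) :
    ∑ j ∈ Finset.range (n + 1), (((j : ℝ) + 1) ^ 2)⁻¹ ≤ 2 - ((n : ℝ) + 1)⁻¹ := by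
  induction n with
  | zero => norm_num
  | succ n ih =>
    rw [Finset.sum_range_succ]
    have hpos : (0 : ℝ) ≤ n := Nat.cast_nonneg n
    have key : ((((n + 1 : ℕ) : ℝ) + 1) ^ 2)⁻¹ ≤ ((n : ℝ) + 1)⁻¹ - (((n + 1 : ℕ) : ℝ) + 1)⁻¹ := by
      push_cast
      rw [inv_eq_one_div, inv_eq_one_div, inv_eq_one_div, div_sub_div _ _ (by positivity) (by positivity)]
      rw [div_le_div_iff₀ (by positivity) (by positivity)]
      nlinarith
    linarith

lemma sum_inv_sq_le_two (n : ℕ) : ∑ j ∈ Finset.range n, (((j : ℝ) + 1) ^ 2)⁻¹ ≤ 2 := by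
  cases n with
  | zero => simp
  | succ n =>
    have h1 := sum_inv_sq_le n
    have h2 : 0 ≤ ((n : ℝ) + 1)⁻¹ := by positivity
    linarith

lemma sum_inv_eq (n : ℕ) : ∑ j ∈ Finset.range n, ((j : ℝ) + 1)⁻¹ = ((harmonic n : ℚ) : ℝ) := by
  rw [harmonic]
  push_cast
  rfl

lemma norm_GammaSeq_ge (z : ℂ) (hz : ∀ m : ℕ, z ≠ -m) (n : ℕ) (hn : 1 ≤ n) :
    Real.exp (-(‖z‖ + ‖z‖ ^ 2)) ≤ ‖z‖ * ‖Complex.GammaSeq z n‖ := by
  have hP : ∏ j ∈ Finset.range (n + 1), (z + j) ≠ 0 := by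
    rw [Finset.prod_ne_zero_iff]
    intro j _ h
    exact hz j (eq_neg_of_add_eq_zero_left h)
  have hPn : 0 < ‖∏ j ∈ Finset.range (n + 1), (z + j)‖ := norm_pos_iff.2 hP
  have hn0 : (0 : ℝ) < n := by exact_mod_cast hn
  have hnc : ‖(n : ℂ) ^ z‖ = (n : ℝ) ^ z.re := by
    rw [Complex.norm_natCast_cpow_of_pos (by omega)]
  rw [Complex.GammaSeq, norm_div, norm_mul, hnc, Complex.norm_natCast, ← mul_div_assoc, le_div_iff₀ hPn]
  have h1 := norm_prod_le z n
  rw [sum_inv_eq] at h1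
  have hH1 : Real.log n ≤ ((harmonic n : ℚ) : ℝ) := by
    refine le_trans ?_ (log_add_one_le_harmonic n)
    exact Real.log_le_log hn0 (by push_cast; linarith)
  have hH2 : ((harmonic n : ℚ) : ℝ) ≤ 1 + Real.log n := harmonic_le_one_add_log n
  have hre : |z.re| ≤ ‖z‖ := Complex.abs_re_le_norm z
  have hS := sum_inv_sq_le_two n
  calc Real.exp (-(‖z‖ + ‖z‖ ^ 2)) * ‖∏ j ∈ Finset.range (n + 1), (z + j)‖
      ≤ Real.exp (-(‖z‖ + ‖z‖ ^ 2)) * (‖z‖ * n ! * Real.exp (z.re * ((harmonic n : ℚ) : ℝ)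
        + ‖z‖ ^ 2 / 2 * ∑ j ∈ Finset.range n, (((j : ℝ) + 1) ^ 2)⁻¹)) :=
        mul_le_mul_of_nonneg_left h1 (Real.exp_pos _).le
    _ = ‖z‖ * n ! * Real.exp (-(‖z‖ + ‖z‖ ^ 2) + (z.re * ((harmonic n : ℚ) : ℝ)
        + ‖z‖ ^ 2 / 2 * ∑ j ∈ Finset.range n, (((j : ℝ) + 1) ^ 2)⁻¹)) := by
        have key : ∀ A B : ℝ, Real.exp A * (‖z‖ * n ! * Real.exp B) = ‖z‖ * n ! * Real.exp (A + B) := by
          intro A B
          rw [Real.exp_add]; ring
        exact key _ _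
    _ ≤ ‖z‖ * n ! * Real.exp (Real.log n * z.re) := by
        refine mul_le_mul_of_nonneg_left (Real.exp_le_exp.2 ?_) (by positivity)
        have e1 : z.re * (((harmonic n : ℚ) : ℝ) - Real.log n) ≤ ‖z‖ := by
          calc z.re * (((harmonic n : ℚ) : ℝ) - Real.log n)
              ≤ |z.re| * |((harmonic n : ℚ) : ℝ) - Real.log n| := by
                rw [← abs_mul]; exact le_abs_self _
            _ ≤ ‖z‖ * 1 := by
                refine mul_le_mul hre ?_ (abs_nonneg _) (norm_nonneg _)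
                rw [abs_le]; constructor <;> linarith
            _ = ‖z‖ := mul_one _
        have e2 : ‖z‖ ^ 2 / 2 * ∑ j ∈ Finset.range n, (((j : ℝ) + 1) ^ 2)⁻¹ ≤ ‖z‖ ^ 2 := by
          have : 0 ≤ ‖z‖ ^ 2 := by positivity
          nlinarith
        nlinarith
    _ = ‖z‖ * ((n : ℝ) ^ z.re * n !) := by
        rw [Real.rpow_def_of_pos hn0]; ring

lemma norm_inv_Gamma_le (z : ℂ) : ‖(Complex.Gamma z)⁻¹‖ ≤ ‖z‖ * Real.exp (‖z‖ + ‖z‖ ^ 2) := by
  by_cases hz : ∀ m : ℕ, z ≠ -m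
  · have hG : Complex.Gamma z ≠ 0 := Complex.Gamma_ne_zero hz
    have h1 : Tendsto (fun n => ‖z‖ * ‖Complex.GammaSeq z n‖) atTop (𝓝 (‖z‖ * ‖Complex.Gamma z‖)) :=
      ((Complex.GammaSeq_tendsto_Gamma z).norm).const_mul _
    have h2 : Real.exp (-(‖z‖ + ‖z‖ ^ 2)) ≤ ‖z‖ * ‖Complex.Gamma z‖ := by
      refine ge_of_tendsto h1 ?_
      filter_upwards [eventually_ge_atTop 1] with n hn using norm_GammaSeq_ge z hz n hn
    rw [Real.exp_neg] at h2
    rw [norm_inv]
    have hGn : 0 < ‖Complex.Gamma z‖ := norm_pos_iff.2 hG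
    rw [inv_le_iff_one_le_mul₀ hGn]
    have hE := Real.exp_pos (‖z‖ + ‖z‖ ^ 2)
    rw [inv_le_iff_one_le_mul₀ hE] at h2
    linarith
  · push Not at hz
    obtain ⟨m, rfl⟩ := hz
    rw [Complex.Gamma_neg_nat_eq_zero]
    simp
    positivity

/-! ### the theta function -/

open Pool.Agent.H469R10.HO (uu)

lemma exists_rpow_mul_exp_le (κ : ℝ) (hκ : 0 < κ) :
    ∃ M : ℝ, 0 ≤ M ∧ ∀ y : ℝ, 0 ≤ y → y ^ κ * Real.exp (-y) ≤ M := by
  refine ⟨1 + (⌈κ⌉₊)!, by positivity, fun y hy => ?_⟩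
  set N := ⌈κ⌉₊ with hN
  have hκN : κ ≤ N := Nat.le_ceil κ
  have h1 : y ^ κ ≤ 1 + y ^ N := by
    rcases le_or_gt y 1 with h | h
    · have := Real.rpow_le_one hy h hκ.le
      have h2 : 0 ≤ y ^ N := by positivity
      linarith
    · have h3 : y ^ κ ≤ y ^ (N : ℝ) := Real.rpow_le_rpow_of_exponent_le h.le hκN
      rw [Real.rpow_natCast] at h3
      linarith
  have h2 : y ^ N ≤ N ! * Real.exp y := by
    have := Real.pow_div_factorial_le_exp y hy N
    rwa [div_le_iff₀ (by positivity), mul_comm] at this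
  have hE : 0 < Real.exp (-y) := Real.exp_pos _
  have hE1 : Real.exp (-y) ≤ 1 := Real.exp_le_one_iff.2 (by linarith)
  have hE2 : Real.exp y * Real.exp (-y) = 1 := by rw [← Real.exp_add]; simp
  calc y ^ κ * Real.exp (-y) ≤ (1 + N ! * Real.exp y) * Real.exp (-y) := by
        refine mul_le_mul_of_nonneg_right (by linarith) hE.le
    _ = Real.exp (-y) + N ! * (Real.exp y * Real.exp (-y)) := by ring
    _ ≤ 1 + N ! := by rw [hE2]; linarith

lemma uu_pos {c lam : ℝ} (hc : 0 < c) {n : ℕ} (hn : n ≠ 0) : 0 < uu c lam n := by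
  have : (0 : ℝ) < n := by exact_mod_cast Nat.pos_of_ne_zero hn
  unfold uu
  positivity

lemma le_uu {c lam : ℝ} (hc : 0 < c) (hlam : 1 ≤ lam) {n : ℕ} (hn : n ≠ 0) : c ≤ uu c lam n := by
  have h1 : (1 : ℝ) ≤ n := by exact_mod_cast Nat.one_le_iff_ne_zero.2 hn
  have h2 : (1 : ℝ) ≤ (n : ℝ) ^ (1 / lam) := Real.one_le_rpow h1 (by positivity)
  unfold uu
  nlinarith

lemma exp_bound {c κ : ℝ} (hκ : 0 < κ) : ∃ K : ℝ, 0 ≤ K ∧ ∀ t : ℝ, 0 < t → ∀ v : ℝ, 0 < v → c ≤ v →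
    Real.exp (-(v * t)) ≤ K * t ^ (-κ) * Real.exp (-(c / 2 * t)) * v ^ (-κ) := by
  obtain ⟨M, hM, hMb⟩ := exists_rpow_mul_exp_le κ hκ
  refine ⟨2 ^ κ * M, by positivity, fun t ht v hv hcv => ?_⟩
  have h1 := hMb (v * t / 2) (by positivity)
  have h2 : (v * t / 2) ^ κ = v ^ κ * t ^ κ / 2 ^ κ := by
    rw [Real.div_rpow (by positivity) (by norm_num), Real.mul_rpow hv.le ht.le]
  rw [h2] at h1
  have h3 : Real.exp (-(v * t)) = Real.exp (-(v * t / 2)) * Real.exp (-(v * t / 2)) := by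
    rw [← Real.exp_add]; congr 1; ring
  have h4 : Real.exp (-(v * t / 2)) ≤ Real.exp (-(c / 2 * t)) := by
    apply Real.exp_le_exp.2
    nlinarith
  have hvκ : 0 < v ^ κ := Real.rpow_pos_of_pos hv κ
  have htκ : 0 < t ^ κ := Real.rpow_pos_of_pos ht κ
  have h2κ : (0 : ℝ) < 2 ^ κ := by positivity
  have h5 : Real.exp (-(v * t / 2)) ≤ 2 ^ κ * M * (t ^ κ)⁻¹ * (v ^ κ)⁻¹ := by
    have : v ^ κ * t ^ κ / 2 ^ κ * Real.exp (-(v * t / 2)) ≤ M := h1
    rw [div_mul_eq_mul_div, div_le_iff₀ h2κ] at this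
    have h6 : Real.exp (-(v * t / 2)) = (v ^ κ * t ^ κ * Real.exp (-(v * t / 2))) * ((t ^ κ)⁻¹ * (v ^ κ)⁻¹) := by
      field_simp
    rw [h6]
    calc (v ^ κ * t ^ κ * Real.exp (-(v * t / 2))) * ((t ^ κ)⁻¹ * (v ^ κ)⁻¹)
        ≤ (M * 2 ^ κ) * ((t ^ κ)⁻¹ * (v ^ κ)⁻¹) := by
          refine mul_le_mul_of_nonneg_right this (by positivity)
      _ = _ := by ring
  rw [Real.rpow_neg ht.le, Real.rpow_neg hv.le, h3]
  calc Real.exp (-(v * t / 2)) * Real.exp (-(v * t / 2))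
      ≤ (2 ^ κ * M * (t ^ κ)⁻¹ * (v ^ κ)⁻¹) * Real.exp (-(c / 2 * t)) :=
        mul_le_mul h5 h4 (Real.exp_pos _).le (by positivity)
    _ = _ := by ring

lemma term_bound {c lam κ : ℝ} (hc : 0 < c) (hlam : 1 ≤ lam) (hκ : 0 < κ) :
    ∃ K : ℝ, 0 ≤ K ∧ ∀ A : ℕ → ℝ, A 0 = 0 → ∀ t : ℝ, 0 < t → ∀ n : ℕ,
    ‖A n * Real.exp (-(uu c lam n * t))‖ ≤
      K * t ^ (-κ) * Real.exp (-(c / 2 * t)) * (|A n| * (uu c lam n) ^ (-κ)) := by
  obtain ⟨K, hK, hKb⟩ := exp_bound (c := c) hκ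
  refine ⟨K, hK, fun A hA t ht n => ?_⟩
  rcases eq_or_ne n 0 with rfl | hn
  · rw [hA]; simp
  · have h1 := hKb t ht (uu c lam n) (uu_pos hc hn) (le_uu hc hlam hn)
    rw [norm_mul, Real.norm_eq_abs, Real.norm_eq_abs, Real.abs_exp]
    calc |A n| * Real.exp (-(uu c lam n * t)) ≤
        |A n| * (K * t ^ (-κ) * Real.exp (-(c / 2 * t)) * (uu c lam n) ^ (-κ)) :=
          mul_le_mul_of_nonneg_left h1 (abs_nonneg _)
      _ = _ := by ring

/-- the theta function -/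
noncomputable def psi (c lam : ℝ) (A : ℕ → ℝ) (t : ℝ) : ℝ := ∑' n, A n * Real.exp (-(uu c lam n * t))

section main

variable {c lam κ : ℝ} (hc : 0 < c) (hlam : 1 ≤ lam) (hκ : 0 < κ) {A : ℕ → ℝ} (hA : A 0 = 0)
  (hS : Summable (fun n => |A n| * (uu c lam n) ^ (-κ)))

include hc hlam hκ hA hS

lemma summable_term {t : ℝ} (ht : 0 < t) : Summable (fun n => A n * Real.exp (-(uu c lam n * t))) := by
  obtain ⟨K, hK, hKb⟩ := term_bound hc hlam hκ
  exact Summable.of_norm_bounded (hS.mul_left _) (hKb A hA t ht)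

lemma psi_bound : ∃ K : ℝ, 0 ≤ K ∧ ∀ t : ℝ, 0 < t →
    |psi c lam A t| ≤ K * t ^ (-κ) * Real.exp (-(c / 2 * t)) := by
  obtain ⟨K, hK, hKb⟩ := term_bound hc hlam hκ
  have hS0 : 0 ≤ ∑' n, |A n| * (uu c lam n) ^ (-κ) := by
    refine tsum_nonneg (fun n => mul_nonneg (abs_nonneg _) (Real.rpow_nonneg ?_ _))
    unfold uu; positivity
  refine ⟨K * ∑' n, |A n| * (uu c lam n) ^ (-κ), by positivity, fun t ht => ?_⟩
  have h1 := tsum_of_norm_bounded ((hS.hasSum).mul_left (K * t ^ (-κ) * Real.exp (-(c / 2 * t)))) (hKb A hA t ht)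
  rw [Real.norm_eq_abs] at h1
  unfold psi
  refine h1.trans (le_of_eq ?_)
  ring

lemma psi_cont : ContinuousOn (psi c lam A) (Ioi 0) := by
  obtain ⟨K, hK, hKb⟩ := term_bound hc hlam hκ
  intro t ht
  have ht' : (0 : ℝ) < t := ht
  have h1 : ContinuousOn (psi c lam A) (Ioi (t / 2)) := by
    refine continuousOn_tsum (u := fun n => K * (t / 2) ^ (-κ) * 1 * (|A n| * (uu c lam n) ^ (-κ))) ?_ (hS.mul_left _) ?_
    · intro n
      fun_prop
    · intro n x hx
      have hx2 : t / 2 < x := hx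
      have hx' : 0 < x := by linarith
      refine (hKb A hA x hx' n).trans ?_
      have hu : 0 ≤ |A n| * (uu c lam n) ^ (-κ) := by
        refine mul_nonneg (abs_nonneg _) (Real.rpow_nonneg ?_ _)
        unfold uu; positivity
      have e1 : x ^ (-κ) ≤ (t / 2) ^ (-κ) :=
        Real.rpow_le_rpow_of_nonpos (by positivity) hx2.le (by linarith)
      have e2 : Real.exp (-(c / 2 * x)) ≤ 1 := Real.exp_le_one_iff.2 (by nlinarith)
      refine mul_le_mul_of_nonneg_right ?_ hu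
      refine mul_le_mul (mul_le_mul_of_nonneg_left e1 hK) e2 (Real.exp_pos _).le (by positivity)
  exact (h1.continuousAt (Ioi_mem_nhds (by linarith))).continuousWithinAt

end main

lemma pow_le_exp {b y : ℝ} (hb : 0 < b) (hy : 0 ≤ y) (N : ℕ) :
    y ^ N ≤ N ! * (1 / b) ^ N * Real.exp (b * y) := by
  have := Real.pow_div_factorial_le_exp (b * y) (by positivity) N
  rw [div_le_iff₀ (by positivity), mul_pow] at this
  have hbN : 0 < b ^ N := by positivity
  have e : y ^ N = (b ^ N * y ^ N) * (1 / b) ^ N := by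
    rw [one_div, inv_pow]; field_simp
  rw [e]
  calc (b ^ N * y ^ N) * (1 / b) ^ N ≤ (Real.exp (b * y) * N !) * (1 / b) ^ N :=
        mul_le_mul_of_nonneg_right this (by positivity)
    _ = _ := by ring

lemma psi_pointwise {c lam k : ℝ} (hc : 0 < c) (hlam : 1 ≤ lam) (hk : 1 < k) {A : ℕ → ℝ} (hA : A 0 = 0)
    (hS : Summable (fun n => |A n| * (uu c lam n) ^ (-(k - 1)))) {ε : ℝ} (hε : ε = 1 ∨ ε = -1)
    (hF : ∀ t : ℝ, 0 < t → psi c lam A (1 / t) = ε * t ^ k * psi c lam A t) :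
    ∃ D : ℝ, 0 ≤ D ∧ ∀ (N : ℕ) (x t : ℝ), |x| ≤ N → 0 < t →
      |psi c lam A t| * t ^ (x - 1) ≤ D * (N + 2)! * (1 + 4 / c) ^ (N + 2) * Real.exp (-(c / 4 * t)) := by
  obtain ⟨K, hK, hKb⟩ := psi_bound hc hlam (by linarith : 0 < k - 1) hA hS
  refine ⟨K * Real.exp (c / 4), by positivity, fun N x t hx ht => ?_⟩
  have hxN := abs_le.1 hx
  have hb1 : 1 ≤ 1 + 4 / c := by have : 0 < 4 / c := by positivity
                                 linarith
  have hexp1 : 1 ≤ Real.exp (c / 4) := Real.one_le_exp (by positivity)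
  rcases le_or_gt 1 t with h1 | h1
  · -- t ≥ 1
    have e1 : t ^ (-(k - 1)) * t ^ (x - 1) ≤ t ^ N := by
      rw [← Real.rpow_add ht, ← Real.rpow_natCast]
      exact Real.rpow_le_rpow_of_exponent_le h1 (by linarith)
    have e2 := pow_le_exp (b := c / 4) (by positivity) ht.le N
    have e3 : (1 / (c / 4)) ^ N ≤ (1 + 4 / c) ^ (N + 2) := by
      calc (1 / (c / 4)) ^ N ≤ (1 + 4 / c) ^ N := by
            refine pow_le_pow_left₀ (by positivity) ?_ N
            rw [one_div_div]; linarith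
        _ ≤ (1 + 4 / c) ^ (N + 2) := pow_le_pow_right₀ hb1 (by omega)
    have e4 : ((N ! : ℕ) : ℝ) ≤ ((N + 2)! : ℕ) := by exact_mod_cast Nat.factorial_le (by omega)
    have e5 : Real.exp (-(c / 2 * t)) = Real.exp (-(c / 4 * t)) * Real.exp (-(c / 4 * t)) := by
      rw [← Real.exp_add]; congr 1; ring
    have e6 : Real.exp (c / 4 * t) * Real.exp (-(c / 4 * t)) = 1 := by rw [← Real.exp_add]; simp
    calc |psi c lam A t| * t ^ (x - 1)
        ≤ (K * t ^ (-(k - 1)) * Real.exp (-(c / 2 * t))) * t ^ (x - 1) :=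
          mul_le_mul_of_nonneg_right (hKb t ht) (by positivity)
      _ = K * (t ^ (-(k - 1)) * t ^ (x - 1)) * Real.exp (-(c / 2 * t)) := by ring
      _ ≤ K * (N ! * (1 / (c / 4)) ^ N * Real.exp (c / 4 * t)) * Real.exp (-(c / 2 * t)) := by
          refine mul_le_mul_of_nonneg_right (mul_le_mul_of_nonneg_left (e1.trans e2) hK) (Real.exp_pos _).le
      _ = K * (N ! * (1 / (c / 4)) ^ N) * (Real.exp (c / 4 * t) * Real.exp (-(c / 4 * t))) * Real.exp (-(c / 4 * t)) := by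
          rw [e5]; ring
      _ = K * 1 * (N ! * (1 / (c / 4)) ^ N) * Real.exp (-(c / 4 * t)) := by rw [e6]; ring
      _ ≤ K * Real.exp (c / 4) * ((N + 2)! * (1 + 4 / c) ^ (N + 2)) * Real.exp (-(c / 4 * t)) := by
          refine mul_le_mul_of_nonneg_right ?_ (Real.exp_pos _).le
          refine mul_le_mul (mul_le_mul_of_nonneg_left hexp1 hK) ?_ (by positivity) (by positivity)
          exact mul_le_mul e4 e3 (by positivity) (by positivity)
      _ = _ := by ring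
  · -- t < 1
    have ht1 : 1 < 1 / t := by rw [lt_div_iff₀ ht]; linarith
    have hti : 0 < 1 / t := by positivity
    have hFt := hF t ht
    have habs : |psi c lam A t| = (1 / t) ^ k * |psi c lam A (1 / t)| := by
      rw [hFt, abs_mul, abs_mul]
      have hε1 : |ε| = 1 := by rcases hε with h | h <;> simp [h]
      have htk : 0 < t ^ k := Real.rpow_pos_of_pos ht k
      rw [hε1, abs_of_pos htk, one_div, Real.inv_rpow ht.le]
      field_simp
    have e0 := hKb (1 / t) hti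
    have e1 : (1 / t) ^ k * (1 / t) ^ (-(k - 1)) * t ^ (x - 1) ≤ (1 / t) ^ (N + 2) := by
      have : t ^ (x - 1) = (1 / t) ^ (1 - x) := by
        rw [one_div, Real.inv_rpow ht.le, ← Real.rpow_neg ht.le]; congr 1; ring
      rw [this, ← Real.rpow_add hti, ← Real.rpow_add hti, ← Real.rpow_natCast]
      refine Real.rpow_le_rpow_of_exponent_le ht1.le ?_
      push_cast
      linarith
    have e2 := pow_le_exp (b := c / 2) (by positivity) hti.le (N + 2)
    have e3 : (1 / (c / 2)) ^ (N + 2) ≤ (1 + 4 / c) ^ (N + 2) := by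
      refine pow_le_pow_left₀ (by positivity) ?_ _
      rw [one_div_div]
      have : 2 / c ≤ 4 / c := by gcongr; norm_num
      linarith
    have e6 : Real.exp (c / 2 * (1 / t)) * Real.exp (-(c / 2 * (1 / t))) = 1 := by
      rw [← Real.exp_add]; simp
    have e7 : 1 ≤ Real.exp (c / 4) * Real.exp (-(c / 4 * t)) := by
      rw [← Real.exp_add]
      apply Real.one_le_exp
      nlinarith
    calc |psi c lam A t| * t ^ (x - 1)
        = (1 / t) ^ k * |psi c lam A (1 / t)| * t ^ (x - 1) := by rw [habs]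
      _ ≤ (1 / t) ^ k * (K * (1 / t) ^ (-(k - 1)) * Real.exp (-(c / 2 * (1 / t)))) * t ^ (x - 1) := by
          gcongr
      _ = K * ((1 / t) ^ k * (1 / t) ^ (-(k - 1)) * t ^ (x - 1)) * Real.exp (-(c / 2 * (1 / t))) := by ring
      _ ≤ K * ((N + 2)! * (1 / (c / 2)) ^ (N + 2) * Real.exp (c / 2 * (1 / t))) * Real.exp (-(c / 2 * (1 / t))) := by
          refine mul_le_mul_of_nonneg_right (mul_le_mul_of_nonneg_left (e1.trans e2) hK) (Real.exp_pos _).le
      _ = K * ((N + 2)! * (1 / (c / 2)) ^ (N + 2)) * (Real.exp (c / 2 * (1 / t)) * Real.exp (-(c / 2 * (1 / t)))) := by ring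
      _ = K * ((N + 2)! * (1 / (c / 2)) ^ (N + 2)) * 1 := by rw [e6]
      _ ≤ K * ((N + 2)! * (1 + 4 / c) ^ (N + 2)) * (Real.exp (c / 4) * Real.exp (-(c / 4 * t))) := by
          refine mul_le_mul ?_ e7 zero_le_one (by positivity)
          refine mul_le_mul_of_nonneg_left ?_ hK
          exact mul_le_mul_of_nonneg_left e3 (by positivity)
      _ = _ := by ring

lemma isBigO_top {c lam k : ℝ} (hc : 0 < c) (hlam : 1 ≤ lam) (hk : 1 < k) {A : ℕ → ℝ} (hA : A 0 = 0)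
    (hS : Summable (fun n => |A n| * (uu c lam n) ^ (-(k - 1)))) (r : ℝ) :
    (fun t : ℝ => (psi c lam A t : ℂ) - 0) =O[atTop] (· ^ r : ℝ → ℝ) := by
  obtain ⟨K, hK, hKb⟩ := psi_bound hc hlam (by linarith : 0 < k - 1) hA hS
  have h1 : (fun t : ℝ => (psi c lam A t : ℂ) - 0) =O[atTop] (fun t : ℝ => Real.exp (-(c / 2) * t)) := by
    refine IsBigO.of_bound K ?_
    filter_upwards [eventually_ge_atTop 1] with t ht
    have ht0 : (0 : ℝ) < t := by linarith
    rw [sub_zero, Complex.norm_real, Real.norm_eq_abs, Real.norm_eq_abs, Real.abs_exp]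
    refine (hKb t ht0).trans ?_
    have e1 : t ^ (-(k - 1)) ≤ 1 := Real.rpow_le_one_of_one_le_of_nonpos ht (by linarith)
    have e2 : -(c / 2 * t) = -(c / 2) * t := by ring
    rw [e2]
    refine mul_le_mul_of_nonneg_right ?_ (Real.exp_pos _).le
    nlinarith
  exact h1.trans (isLittleO_exp_neg_mul_rpow_atTop (by positivity) r).isBigO

theorem taskF : Pool.Agent.H469R10.HO.TaskF := by
  intro c lam k hc hlam hk A hA hS ε hε hF
  have hF' : ∀ t : ℝ, 0 < t → psi c lam A (1 / t) = ε * t ^ k * psi c lam A t := by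
    intro t ht
    have h1 := hF t ht
    unfold psi
    rw [← h1]
    refine tsum_congr (fun n => ?_)
    rw [mul_one_div]
  have hint : LocallyIntegrableOn (fun t : ℝ => (psi c lam A t : ℂ)) (Ioi 0) := by
    refine ContinuousOn.locallyIntegrableOn ?_ measurableSet_Ioi
    exact Complex.continuous_ofReal.comp_continuousOn (psi_cont hc hlam (by linarith : 0 < k - 1) hA hS)
  have hε0 : (ε : ℂ) ≠ 0 := by
    rcases hε with h | h <;> simp [h]
  let P : WeakFEPair ℂ :=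
    { f := fun t : ℝ => (psi c lam A t : ℂ)
      g := fun t : ℝ => (psi c lam A t : ℂ)
      k := k
      ε := (ε : ℂ)
      f₀ := 0
      g₀ := 0
      hf_int := hint
      hg_int := hint
      hk := by linarith
      hε := hε0
      h_feq := by
        intro x hx
        have := hF' x hx
        rw [this]
        push_cast
        simp
      hf_top := isBigO_top hc hlam hk hA hS
      hg_top := isBigO_top hc hlam hk hA hS }
  have hP : IsStrongFEPair P := ⟨rfl, rfl⟩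
  have hΛ : P.Λ = mellin (fun t : ℝ => (psi c lam A t : ℂ)) := hP.Λ_eq
  refine ⟨P.Λ, hP.differentiable_Λ, ?_, ?_, ?_, ?_⟩
  · intro z
    have h1 := P.functional_equation z
    have h2 : P.symm.Λ = mellin (fun t : ℝ => (psi c lam A t : ℂ)) := hP.symm_Λ_eq
    rw [h2, ← hΛ] at h1
    exact h1
  · intro z
    rw [hΛ]
    unfold mellin
    rw [← integral_conj]
    refine setIntegral_congr_fun measurableSet_Ioi (fun t ht => ?_)
    have ht0 : (0 : ℝ) < t := ht
    have harg : ((t : ℝ) : ℂ).arg ≠ π := by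
      rw [Complex.arg_ofReal_of_nonneg ht0.le]; exact Real.pi_pos.ne
    simp only [smul_eq_mul, map_mul, Complex.conj_ofReal]
    congr 1
    have e1 : (starRingEnd ℂ) z - 1 = (starRingEnd ℂ) (z - 1) := by simp
    rw [e1, Complex.cpow_conj _ _ harg, Complex.conj_ofReal]
  · intro z hz
    have hz0 : 0 < z.re := by linarith
    have h1 : HasSum (fun n : ℕ => Complex.Gamma z * (A n : ℂ) / ((uu c lam n : ℝ) : ℂ) ^ z)
        (mellin (fun t : ℝ => (psi c lam A t : ℂ)) z) := by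
      refine hasSum_mellin (a := fun n => (A n : ℂ)) (p := fun n => uu c lam n) ?_ hz0 ?_ ?_
      · intro n
        rcases eq_or_ne n 0 with rfl | hn
        · left; simp [hA]
        · right; exact uu_pos hc hn
      · intro t ht
        have h2 := (summable_term hc hlam (by linarith : 0 < k - 1) hA hS ht).hasSum
        have h3 := Complex.hasSum_ofReal.2 h2
        have h4 : (fun n : ℕ => (A n : ℂ) * ((Real.exp (-(uu c lam n) * t) : ℝ) : ℂ)) =
            (fun n : ℕ => ((A n * Real.exp (-(uu c lam n * t)) : ℝ) : ℂ)) := by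
          funext n
          rw [Complex.ofReal_mul, neg_mul]
        rw [h4]
        exact h3
      · -- summability
        have h5 : ∀ n : ℕ, ‖(A n : ℂ)‖ / (uu c lam n) ^ z.re ≤
            c ^ (-(z.re - (k - 1))) * (|A n| * (uu c lam n) ^ (-(k - 1))) := by
          intro n
          rcases eq_or_ne n 0 with rfl | hn
          · simp [hA]
          · have hu := uu_pos (lam := lam) hc hn
            have hcu := le_uu hc hlam hn
            rw [Complex.norm_real, Real.norm_eq_abs, div_eq_mul_inv, ← Real.rpow_neg hu.le]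
            have e1 : (uu c lam n) ^ (-z.re) = (uu c lam n) ^ (-(z.re - (k - 1))) * (uu c lam n) ^ (-(k - 1)) := by
              rw [← Real.rpow_add hu]; congr 1; ring
            have e2 : (uu c lam n) ^ (-(z.re - (k - 1))) ≤ c ^ (-(z.re - (k - 1))) :=
              Real.rpow_le_rpow_of_nonpos hc hcu (by linarith)
            rw [e1]
            have e3 : 0 ≤ (uu c lam n) ^ (-(k - 1)) := Real.rpow_nonneg hu.le _
            calc |A n| * ((uu c lam n) ^ (-(z.re - (k - 1))) * (uu c lam n) ^ (-(k - 1)))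
                = (uu c lam n) ^ (-(z.re - (k - 1))) * (|A n| * (uu c lam n) ^ (-(k - 1))) := by ring
              _ ≤ _ := mul_le_mul_of_nonneg_right e2 (by positivity)
        refine Summable.of_nonneg_of_le (fun n => ?_) h5 (hS.mul_left _)
        refine div_nonneg (norm_nonneg _) (Real.rpow_nonneg ?_ _)
        unfold uu; positivity
    have hG : Complex.Gamma z ≠ 0 := Complex.Gamma_ne_zero_of_re_pos hz0
    have h2 := h1.mul_right (Complex.Gamma z)⁻¹
    rw [← hΛ] at h2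
    have h3 : (fun n : ℕ => if n = 0 then 0 else (A n : ℂ) * ((uu c lam n : ℝ) : ℂ) ^ (-z)) =
        (fun n : ℕ => Complex.Gamma z * (A n : ℂ) / ((uu c lam n : ℝ) : ℂ) ^ z * (Complex.Gamma z)⁻¹) := by
      funext n
      rcases eq_or_ne n 0 with rfl | hn
      · simp [hA]
      · rw [if_neg hn, Complex.cpow_neg]
        field_simp
    rw [h3]
    exact h2
  · obtain ⟨D, hD, hDb⟩ := psi_pointwise hc hlam hk hA hS hε hF'
    have hb1 : 1 ≤ 1 + 4 / c := by have : 0 < 4 / c := by positivity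
                                   linarith
    set L : ℝ := Real.log (1 + 4 / c) with hL
    have hL0 : 0 ≤ L := Real.log_nonneg hb1
    refine ⟨D * (4 / c) + 9 + 3 * L + 2, fun z => ?_⟩
    set N : ℕ := ⌈|z.re|⌉₊ with hN
    have hxN : |z.re| ≤ N := Nat.le_ceil _
    have hNz : (N : ℝ) ≤ ‖z‖ + 1 := by
      have := Nat.ceil_lt_add_one (abs_nonneg z.re)
      have h2 := Complex.abs_re_le_norm z
      linarith
    have hmel : ‖P.Λ z‖ ≤ D * (N + 2)! * (1 + 4 / c) ^ (N + 2) * (4 / c) := by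
      rw [hΛ]
      unfold mellin
      have hI : IntegrableOn (fun t : ℝ => D * (N + 2)! * (1 + 4 / c) ^ (N + 2) * Real.exp (-(c / 4) * t)) (Ioi 0) :=
        (integrableOn_exp_mul_Ioi (by linarith [show 0 < c / 4 by positivity]) 0).const_mul _
      have h1 := norm_integral_le_of_norm_le hI (f := fun t : ℝ => (t : ℂ) ^ (z - 1) • ((psi c lam A t : ℝ) : ℂ)) (by
        refine (ae_restrict_iff' measurableSet_Ioi).2 (Eventually.of_forall (fun t ht => ?_))
        have ht0 : (0 : ℝ) < t := ht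
        have h2 := hDb N z.re t hxN ht0
        rw [norm_smul, Complex.norm_cpow_eq_rpow_re_of_pos ht0, Complex.norm_real, Real.norm_eq_abs,
          Complex.sub_re, Complex.one_re, mul_comm]
        rw [neg_mul]
        exact h2)
      refine h1.trans (le_of_eq ?_)
      rw [integral_const_mul, integral_exp_mul_Ioi (by linarith [show 0 < c / 4 by positivity])]
      simp
    have hG := norm_inv_Gamma_le z
    rw [norm_mul]
    have hz0 : 0 ≤ ‖z‖ := norm_nonneg z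
    -- bounds by exponentials
    have b1 : D * (4 / c) ≤ Real.exp (D * (4 / c)) := by
      have := Real.add_one_le_exp (D * (4 / c)); linarith
    have b2 : (((N + 2)! : ℕ) : ℝ) ≤ Real.exp ((‖z‖ + 3) ^ 2) := by
      have h1 : (N + 2)! ≤ (N + 2) ^ (N + 2) := Nat.factorial_le_pow _
      have h2 : (((N + 2)! : ℕ) : ℝ) ≤ ((N : ℝ) + 2) ^ (N + 2) := by exact_mod_cast h1
      have h3 : ((N : ℝ) + 2) ≤ Real.exp ((N : ℝ) + 2) := by
        have := Real.add_one_le_exp ((N : ℝ) + 2); linarith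
      have h4 : ((N : ℝ) + 2) ^ (N + 2) ≤ Real.exp ((N : ℝ) + 2) ^ (N + 2) :=
        pow_le_pow_left₀ (by positivity) h3 _
      rw [← Real.exp_nat_mul] at h4
      refine (h2.trans h4).trans (Real.exp_le_exp.2 ?_)
      push_cast
      have : (N : ℝ) + 2 ≤ ‖z‖ + 3 := by linarith
      have h0 : (0 : ℝ) ≤ (N : ℝ) + 2 := by positivity
      nlinarith
    have b3 : (1 + 4 / c) ^ (N + 2) ≤ Real.exp (L * (‖z‖ + 3)) := by
      have h1 : 1 + 4 / c = Real.exp L := by rw [hL, Real.exp_log (by linarith)]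
      rw [h1, ← Real.exp_nat_mul]
      apply Real.exp_le_exp.2
      push_cast
      have : (N : ℝ) + 2 ≤ ‖z‖ + 3 := by linarith
      nlinarith
    have b4 : ‖z‖ ≤ Real.exp ‖z‖ := by
      have := Real.add_one_le_exp ‖z‖; linarith
    calc ‖P.Λ z‖ * ‖(Complex.Gamma z)⁻¹‖
        ≤ (D * (N + 2)! * (1 + 4 / c) ^ (N + 2) * (4 / c)) * (‖z‖ * Real.exp (‖z‖ + ‖z‖ ^ 2)) :=
          mul_le_mul hmel hG (norm_nonneg _) (by positivity)
      _ = (D * (4 / c)) * ((N + 2)! : ℕ) * (1 + 4 / c) ^ (N + 2) * ‖z‖ * Real.exp (‖z‖ + ‖z‖ ^ 2) := by ring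
      _ ≤ Real.exp (D * (4 / c)) * Real.exp ((‖z‖ + 3) ^ 2) * Real.exp (L * (‖z‖ + 3)) * Real.exp ‖z‖
            * Real.exp (‖z‖ + ‖z‖ ^ 2) := by gcongr
      _ = Real.exp (D * (4 / c) + (‖z‖ + 3) ^ 2 + L * (‖z‖ + 3) + ‖z‖ + (‖z‖ + ‖z‖ ^ 2)) := by
          rw [← Real.exp_add, ← Real.exp_add, ← Real.exp_add, ← Real.exp_add]
      _ ≤ Real.exp ((D * (4 / c) + 9 + 3 * L + 2) * (1 + ‖z‖) ^ 2) := by
          apply Real.exp_le_exp.2
          have hd : 0 ≤ D * (4 / c) := by positivity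
          have q1 : D * (4 / c) ≤ D * (4 / c) * (1 + ‖z‖) ^ 2 := by nlinarith
          have q2 : (‖z‖ + 3) ^ 2 ≤ 9 * (1 + ‖z‖) ^ 2 := by nlinarith
          have q3 : L * (‖z‖ + 3) ≤ 3 * L * (1 + ‖z‖) ^ 2 := by nlinarith [mul_nonneg hL0 hz0, mul_nonneg hL0 (sq_nonneg ‖z‖)]
          have q4 : ‖z‖ + (‖z‖ + ‖z‖ ^ 2) ≤ 2 * (1 + ‖z‖) ^ 2 := by nlinarith
          nlinarith

end Pool.Agent.H144R3.T469F
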