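import Mathlib

namespace Pool.Agent.H144R3.CB

open Finset

/-! First order expansion of a product. -/

theorem prod_expand {R ι : Type*} [CommRing R] (s : Finset ι) (y : R) (f : ι → R) :
    y ^ 2 ∣ ∏ i ∈ s, (1 + y * f i) - (1 + y * ∑ i ∈ s, f i) := by
  classical
  induction s using Finset.induction_on with
  | empty => simp
  | insert a s ha ih =>
    rw [prod_insert ha, sum_insert ha]
    obtain ⟨z, hz⟩ := ih
    refine ⟨(1 + y * f a) * z + f a * ∑ i ∈ s, f i, ?_⟩
    linear_combination (1 + y * f a) * hz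

/-! Doubling: for odd `n` the map `j ↦ 2 j` modulo `n` permutes `range n`. -/

theorem sum_double {M : Type*} [AddCommMonoid M] (n : ℕ) (hn : n % 2 = 1) (G : ℕ → M) :
    ∑ j ∈ range n, G (2 * j) = ∑ k ∈ range n, (if k % 2 = 0 then G k else G (k + n)) := by
  refine Finset.sum_nbij' (fun j => if 2 * j < n then 2 * j else 2 * j - n)
    (fun k => if k % 2 = 0 then k / 2 else (k + n) / 2) ?_ ?_ ?_ ?_ ?_
  · intro a ha
    simp only [mem_range] at ha ⊢
    split_ifs <;> omega
  · intro a ha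
    simp only [mem_range] at ha ⊢
    split_ifs <;> omega
  · intro a ha
    simp only [mem_range] at ha ⊢
    split_ifs <;> omega
  · intro a ha
    simp only [mem_range] at ha ⊢
    split_ifs <;> omega
  · intro a ha
    simp only [mem_range] at ha ⊢
    by_cases h : 2 * a < n
    · rw [if_pos h, if_pos (by omega)]
    · rw [if_neg h, if_neg (by omega)]
      congr 1
      omega

theorem prod_double {M : Type*} [CommMonoid M] (n : ℕ) (hn : n % 2 = 1) (G : ℕ → M) :
    ∏ j ∈ range n, G (2 * j) = ∏ k ∈ range n, (if k % 2 = 0 then G k else G (k + n)) := by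
  refine Finset.prod_nbij' (fun j => if 2 * j < n then 2 * j else 2 * j - n)
    (fun k => if k % 2 = 0 then k / 2 else (k + n) / 2) ?_ ?_ ?_ ?_ ?_
  · intro a ha
    simp only [mem_range] at ha ⊢
    split_ifs <;> omega
  · intro a ha
    simp only [mem_range] at ha ⊢
    split_ifs <;> omega
  · intro a ha
    simp only [mem_range] at ha ⊢
    split_ifs <;> omega
  · intro a ha
    simp only [mem_range] at ha ⊢
    split_ifs <;> omega
  · intro a ha
    simp only [mem_range] at ha ⊢
    by_cases h : 2 * a < n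
    · rw [if_pos h, if_pos (by omega)]
    · rw [if_neg h, if_neg (by omega)]
      congr 1
      omega

theorem sum_range_mul_ite {M : Type*} [AddCommMonoid M] (p q : ℕ) (hp : 0 < p) (f : ℕ → M) :
    ∑ k ∈ range (p * q), (if p ∣ k then f k else 0) = ∑ i ∈ range q, f (p * i) := by
  induction q with
  | zero => simp
  | succ q ih =>
    rw [Nat.mul_succ, sum_range_add, ih, sum_range_succ]
    congr 1
    rw [Finset.sum_eq_single_of_mem 0 (by simpa using hp)]
    · simp
    · intro t ht ht0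
      rw [if_neg]
      intro hd
      rw [Nat.dvd_add_right (Dvd.intro _ rfl)] at hd
      exact absurd (Nat.le_of_dvd (by omega) hd) (by simp only [mem_range] at ht; omega)

section

variable (p : ℕ) [hp : Fact p.Prime]

/-- `p`-depleted inverse of a natural number. -/
noncomputable def v (k : ℕ) : ℤ_[p] := if p ∣ k then 0 else Ring.inverse (k : ℤ_[p])

theorem v_dvd {k : ℕ} (h : p ∣ k) : v p k = 0 := if_pos h

theorem isUnit_nat {k : ℕ} (h : ¬ p ∣ k) : IsUnit (k : ℤ_[p]) := by
  rw [PadicInt.isUnit_iff]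
  have h1 : ¬ ‖((k : ℤ) : ℤ_[p])‖ < 1 := by
    rw [PadicInt.norm_int_lt_one_iff_dvd]
    intro h2
    exact h (by exact_mod_cast h2)
  have h2 := PadicInt.norm_le_one ((k : ℤ) : ℤ_[p])
  push_cast at h1 h2
  exact le_antisymm h2 (not_lt.mp h1)

theorem mul_v {k : ℕ} (h : ¬ p ∣ k) : (k : ℤ_[p]) * v p k = 1 := by
  rw [v, if_neg h]
  exact Ring.mul_inverse_cancel _ (isUnit_nat p h)

theorem v_add {m : ℕ} (hm : p ∣ m) (k : ℕ) :
    v p k - v p (m + k) = m * (v p k * v p (m + k)) := by
  by_cases h : p ∣ k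
  · rw [v_dvd p h, v_dvd p (dvd_add hm h)]; ring
  · have h' : ¬ p ∣ m + k := by rwa [Nat.dvd_add_right hm]
    have h1 := mul_v p h
    have h2 := mul_v p h'
    push_cast at h2
    linear_combination (v p (m + k)) * h1 - v p k * h2

theorem v_refl {m : ℕ} (hm : p ∣ m) {k : ℕ} (hk : k ≤ m) :
    v p k + v p (m - k) = m * (v p k * v p (m - k)) := by
  by_cases h : p ∣ k
  · rw [v_dvd p h, v_dvd p (Nat.dvd_sub hm h)]; ring
  · have h' : ¬ p ∣ m - k := by
      intro h3
      apply h
      have := Nat.dvd_sub hm h3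
      rwa [Nat.sub_sub_self hk] at this
    have h1 := mul_v p h
    have h2 := mul_v p h'
    rw [Nat.cast_sub hk] at h2
    linear_combination (-v p (m - k)) * h1 - v p k * h2

theorem two_sum_v {m : ℕ} (hm : p ∣ m) :
    2 * ∑ k ∈ range m, v p k = m * ∑ k ∈ range (m + 1), (v p k * v p (m - k)) := by
  have h1 : ∑ k ∈ range (m + 1), v p k = ∑ k ∈ range m, v p k := by
    rw [sum_range_succ, v_dvd p hm, add_zero]
  have h2 := Finset.sum_flip (n := m) (fun k => v p k)
  have h3 : ∑ k ∈ range (m + 1), (m : ℤ_[p]) * (v p k * v p (m - k)) =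
      ∑ k ∈ range (m + 1), (v p k + v p (m - k)) := by
    refine sum_congr rfl fun k hk => ?_
    rw [mem_range] at hk
    exact (v_refl p hm (by omega)).symm
  rw [← mul_sum, sum_add_distrib, h2, h1] at h3
  rw [h3]
  ring

theorem choose_rec (N k : ℕ) : ((N.choose (k + 1) : ℕ) : ℤ_[p]) * (k + 1) =
    (N.choose k : ℕ) * ((N : ℤ_[p]) - k) := by
  rcases le_or_gt k N with h | h
  · have := Nat.choose_succ_right_eq N k
    have h2 : ((N.choose (k + 1) * (k + 1) : ℕ) : ℤ_[p]) = ((N.choose k * (N - k) : ℕ) : ℤ_[p]) := by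
      rw [this]
    push_cast [Nat.cast_sub h] at h2
    exact h2
  · rw [Nat.choose_eq_zero_of_lt h, Nat.choose_eq_zero_of_lt (by omega)]
    simp

theorem choose_block (N K t : ℕ) :
    ((N.choose (K + t) : ℕ) : ℤ_[p]) * ∏ j ∈ range t, ((K : ℤ_[p]) + j + 1) =
    (N.choose K : ℕ) * ∏ j ∈ range t, ((N : ℤ_[p]) - K - j) := by
  induction t with
  | zero => simp
  | succ t ih =>
    rw [prod_range_succ, prod_range_succ]
    have := choose_rec p N (K + t)
    push_cast at this
    rw [← add_assoc K t 1]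
    linear_combination (∏ j ∈ range t, ((K : ℤ_[p]) + j + 1)) * this +
      ((N : ℤ_[p]) - K - t) * ih

/-- exact formula for `C(pa, pb)`. -/
theorem choose_mul_mul (a b : ℕ) :
    (((p * a).choose (p * b) : ℕ) : ℤ_[p]) =
      ((-1) ^ (p - 1)) ^ b * (a.choose b : ℕ) *
        ∏ j ∈ range (p * b), (1 + (p * a : ℤ_[p]) * (- v p j)) := by
  have hp1 : 1 ≤ p := hp.out.one_lt.le
  have hp0 : (p : ℤ_[p]) ≠ 0 := by
    exact_mod_cast hp.out.ne_zero
  induction b with
  | zero => simp
  | succ b ih =>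
    have hb := choose_block p (p * a) (p * b) p
    have e1 : ∏ j ∈ range p, (((p * b : ℕ) : ℤ_[p]) + j + 1) =
        (∏ j ∈ range (p - 1), (((p * b + (j + 1) : ℕ)) : ℤ_[p])) * (p * (b + 1)) := by
      obtain ⟨r, rfl⟩ : ∃ r, p = r + 1 := ⟨p - 1, by omega⟩
      rw [prod_range_succ, Nat.add_sub_cancel]
      congr 1
      · refine prod_congr rfl fun j _ => ?_
        push_cast; ring
      · push_cast; ring
    have e2 : ∏ j ∈ range p, (((p * a : ℕ) : ℤ_[p]) - ((p * b : ℕ) : ℤ_[p]) - j) =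
        (∏ j ∈ range (p - 1), (((p * b + (j + 1) : ℕ)) : ℤ_[p])) * ((-1) ^ (p - 1) *
        (∏ j ∈ range (p - 1), (1 + (p * a : ℤ_[p]) * (- v p (p * b + (j + 1))))) *
        (p * (a - b))) := by
      have e3 : ∏ j ∈ range p, (((p * a : ℕ) : ℤ_[p]) - ((p * b : ℕ) : ℤ_[p]) - j) =
          (∏ j ∈ range (p - 1), (((p * a : ℕ) : ℤ_[p]) - ((p * b : ℕ) : ℤ_[p]) - ((j + 1 : ℕ) : ℤ_[p]))) *
            (p * (a - b)) := by
        obtain ⟨r, hr⟩ : ∃ r, p = r + 1 := ⟨p - 1, by omega⟩
        have : range p = range (p - 1 + 1) := by rw [Nat.sub_add_cancel hp1]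
        rw [this, prod_range_succ']
        congr 1
        push_cast; ring
      rw [e3, ← mul_assoc, ← mul_assoc, ← mul_assoc]
      have h0 : ((-1 : ℤ_[p]) ^ (p - 1)) = ∏ j ∈ range (p - 1), (-1 : ℤ_[p]) := by
        rw [prod_const, card_range]
      rw [h0, ← prod_mul_distrib, ← prod_mul_distrib]
      congr 1
      rw [mul_comm, mul_comm (∏ x ∈ range (p - 1), _) (p : ℤ_[p])]
      congr 1
      refine prod_congr rfl fun j hj => ?_
      rw [mem_range] at hj
      have hnd : ¬ p ∣ p * b + (j + 1) := by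
        rw [Nat.dvd_add_right (Dvd.intro _ rfl)]
        intro hd
        exact absurd (Nat.le_of_dvd (by omega) hd) (by omega)
      have := mul_v p hnd
      push_cast at this ⊢
      linear_combination (-(p : ℤ_[p]) * a) * this
    rw [e1, e2] at hb
    have hne : (∏ j ∈ range (p - 1), (((p * b + (j + 1) : ℕ)) : ℤ_[p])) ≠ 0 := by
      rw [prod_ne_zero_iff]
      intro j _
      exact_mod_cast (by omega : p * b + (j + 1) ≠ 0)
    have hb1 : ((b : ℤ_[p]) + 1) ≠ 0 := by exact_mod_cast (by omega : b + 1 ≠ 0)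
    have hs : ∏ j ∈ range (p * (b + 1)), (1 + (p * a : ℤ_[p]) * (- v p j)) =
        (∏ j ∈ range (p * b), (1 + (p * a : ℤ_[p]) * (- v p j))) *
        ∏ j ∈ range (p - 1), (1 + (p * a : ℤ_[p]) * (- v p (p * b + (j + 1)))) := by
      rw [Nat.mul_succ, prod_range_add]
      congr 1
      have : range p = range (p - 1 + 1) := by rw [Nat.sub_add_cancel hp1]
      rw [this, prod_range_succ', add_zero, v_dvd p (Dvd.intro _ rfl : p ∣ p * b)]
      simp
    have hr := choose_rec p a b
    rw [hs]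
    have hK : p * (b + 1) = p * b + p := by ring
    rw [hK]
    apply mul_left_cancel₀ hne
    apply mul_left_cancel₀ hp0
    apply mul_left_cancel₀ hb1
    rw [ih] at hb
    rw [pow_succ]
    linear_combination hb + (-(-1) ^ (p - 1) * ((-1) ^ (p - 1)) ^ b * (∏ j ∈ range (p - 1), (((p * b + (j + 1) : ℕ)) : ℤ_[p])) * p * (∏ j ∈ range (p * b), (1 + (p * a : ℤ_[p]) * (- v p j))) *
        ∏ j ∈ range (p - 1), (1 + (p * a : ℤ_[p]) * (- v p (p * b + (j + 1))))) * hr

end

end Pool.Agent.H144R3.CB
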