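import Pool.Agent.H144R3.CBThm

namespace Pool.Agent.H144R3.CB

open Finset

/-- the values of the odd character modulo 3 -/
def f3 : ZMod 3 → ℤ := ![0, 1, -1]

/-- the values of the odd character modulo 4 -/
def f4 : ZMod 4 → ℤ := ![0, 1, 0, -1]

def c3 (x : ℤ) : ℤ := f3 (x : ZMod 3)

def c4 (x : ℤ) : ℤ := f4 (x : ZMod 4)

theorem f3_neg : ∀ a : ZMod 3, f3 (-a) = - f3 a := by decide
theorem f3_mul : ∀ a b : ZMod 3, f3 (a * b) = f3 a * f3 b := by decide
theorem f3_sum : ∀ a b : ZMod 3, b ≠ 0 → f3 (a - b) + f3 a + f3 (a + b) = 0 := by decide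
theorem f3_two : ∀ a b : ZMod 3, f3 (a - 2 * b) = - f3 (- a - b) := by decide
theorem f4_neg : ∀ a : ZMod 4, f4 (-a) = - f4 a := by decide
theorem f4_mul : ∀ a b : ZMod 4, f4 (a * b) = f4 a * f4 b := by decide

variable (p : ℕ) [hp : Fact p.Prime]

/-- reflection -/
theorem sum_refl {M : ℕ} (hM : p ∣ M) (g : ℕ → ℤ_[p]) :
    (M : ℤ_[p]) ∣ ∑ k ∈ range M, g k * v p k + ∑ k ∈ range M, g (M - k) * v p k := by
  have h1 : ∑ k ∈ range M, g k * v p k = ∑ k ∈ range (M + 1), g k * v p k := by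
    rw [sum_range_succ, v_dvd p hM, mul_zero, add_zero]
  have h2 : ∑ k ∈ range M, g (M - k) * v p k = ∑ k ∈ range (M + 1), g (M - k) * v p k := by
    rw [sum_range_succ, v_dvd p hM, mul_zero, add_zero]
  have h3 := Finset.sum_flip (n := M) (fun k => g k * v p k)
  rw [h1, h2, ← h3, ← sum_add_distrib]
  apply dvd_sum
  intro k hk
  rw [mem_range] at hk
  have := v_refl p hM (k := k) (by omega)
  refine ⟨g (M - k) * (v p k * v p (M - k)), ?_⟩
  linear_combination g (M - k) * this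

/-- doubling -/
theorem sum_dbl (h2 : p ≠ 2) {M : ℕ} (hM : p ∣ M) (hodd : M % 2 = 1) (g : ℕ → ℤ_[p]) :
    (M : ℤ_[p]) ∣ ∑ j ∈ range M, g (2 * j) * v p j -
      2 * ∑ k ∈ range M, (if k % 2 = 0 then g k else g (k + M)) * v p k := by
  have h1 := sum_double M hodd (fun k => g k * v p k * 2)
  have h2v : ∀ j, v p (2 * j) * 2 = v p j := by
    intro j
    have hnd : ¬ p ∣ 2 := fun h => h2 ((Nat.prime_dvd_prime_iff_eq hp.out Nat.prime_two).1 h)
    by_cases h : p ∣ j
    · rw [v_dvd p h, v_dvd p (dvd_mul_of_dvd_right h 2), zero_mul]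
    · have h' : ¬ p ∣ 2 * j := fun h3 => ((hp.out.dvd_mul).1 h3).elim hnd h
      have h3 := mul_v p h
      have h4 := mul_v p h'
      push_cast at h4
      linear_combination (-v p (2 * j) * 2) * h3 + v p j * h4
  have h3 : ∑ j ∈ range M, g (2 * j) * v p j = ∑ j ∈ range M, g (2 * j) * v p (2 * j) * 2 := by
    refine sum_congr rfl fun j _ => ?_
    rw [← h2v j]; ring
  rw [h3, h1, mul_sum, ← sum_sub_distrib]
  apply dvd_sum
  intro k _
  by_cases h : k % 2 = 0
  · rw [if_pos h, if_pos h]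
    refine ⟨0, by ring⟩
  · rw [if_neg h, if_neg h]
    have := v_add p hM k
    rw [add_comm k M]
    refine ⟨- 2 * g (M + k) * (v p k * v p (M + k)), ?_⟩
    linear_combination (- 2 * g (M + k)) * this

/-- base block, character modulo 3, `p ≠ 3` -/
theorem block3 (h2 : p ≠ 2) (h3 : p ≠ 3) {s : ℕ} (hs : s ≠ 0) (c : ℤ) :
    ((p ^ s : ℕ) : ℤ_[p]) ∣ FF p c3 (p ^ s) c := by
  set M := p ^ s with hMdef
  have hM : p ∣ M := dvd_pow_self p hs
  have hModd : Odd M := (hp.out.odd_of_ne_two h2).pow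
  have hM2 : M % 2 = 1 := Nat.odd_iff.1 hModd
  have hM3 : (M : ZMod 3) ≠ 0 := by
    intro h
    rw [ZMod.natCast_eq_zero_iff] at h
    exact h3 ((Nat.prime_dvd_prime_iff_eq Nat.prime_three hp.out).1
      (Nat.prime_three.dvd_of_dvd_pow h)).symm
  set y : ℤ → ℤ_[p] := fun c => ∑ k ∈ range M, (c3 (c - k) : ℤ_[p]) * v p k with hy
  have hx : ∀ c, FF p c3 M c = ∑ k ∈ range M, (-1) ^ k * (c3 (c - k) : ℤ_[p]) * v p k := fun c => rfl
  -- three term relations
  have y3 : ∀ c, y (c - M) + y c + y (c + M) = 0 := by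
    intro c
    simp only [hy]
    rw [← sum_add_distrib, ← sum_add_distrib]
    apply sum_eq_zero
    intro k _
    have := f3_sum ((c : ZMod 3) - k) M hM3
    have e : c3 (c - M - k) + c3 (c - k) + c3 (c + M - k) = 0 := by
      simp only [c3]
      push_cast
      rw [← this]
      congr 2
      · congr 1; ring
      · ring
    have e' : ((c3 (c - M - k) : ℤ) : ℤ_[p]) + c3 (c - k) + c3 (c + M - k) = 0 := by
      exact_mod_cast e
    linear_combination v p k * e'
  have x3 : ∀ c, FF p c3 M (c - M) + FF p c3 M c + FF p c3 M (c + M) = 0 := by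
    intro c
    simp only [hx]
    rw [← sum_add_distrib, ← sum_add_distrib]
    apply sum_eq_zero
    intro k _
    have := f3_sum ((c : ZMod 3) - k) M hM3
    have e : c3 (c - M - k) + c3 (c - k) + c3 (c + M - k) = 0 := by
      simp only [c3]
      push_cast
      rw [← this]
      congr 2
      · congr 1; ring
      · ring
    have e' : ((c3 (c - M - k) : ℤ) : ℤ_[p]) + c3 (c - k) + c3 (c + M - k) = 0 := by
      exact_mod_cast e
    linear_combination ((-1) ^ k * v p k) * e'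
  -- reflection
  have yr : ∀ c, (M : ℤ_[p]) ∣ y (-c) - y (c + M) := by
    intro c
    have := sum_refl p hM (fun k => (c3 (-c - k) : ℤ_[p]))
    have e : ∑ k ∈ range M, (c3 (-c - ((M - k : ℕ) : ℤ)) : ℤ_[p]) * v p k = - y (c + M) := by
      simp only [hy]
      rw [← sum_neg_distrib]
      refine sum_congr rfl fun k hk => ?_
      rw [mem_range] at hk
      have e1 : -c - ((M - k : ℕ) : ℤ) = -(c + M - k) := by
        rw [Nat.cast_sub hk.le]; ring
      have e2 : c3 (-(c + M - k)) = - c3 (c + M - k) := by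
        simp only [c3, Int.cast_neg, f3_neg]
      rw [e1, e2]
      push_cast; ring
    rw [e] at this
    simpa [hy, sub_eq_add_neg] using this
  -- doubling
  have yd : ∀ c, (M : ℤ_[p]) ∣ - y (-c) -
      (FF p c3 M c + y c + y (c - M) - FF p c3 M (c - M)) := by
    intro c
    have := sum_dbl p h2 hM hM2 (fun k => (c3 (c - k) : ℤ_[p]))
    have e1 : ∑ j ∈ range M, (c3 (c - ((2 * j : ℕ) : ℤ)) : ℤ_[p]) * v p j = - y (-c) := by
      simp only [hy]
      rw [← sum_neg_distrib]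
      refine sum_congr rfl fun j _ => ?_
      have e2 : c3 (c - ((2 * j : ℕ) : ℤ)) = - c3 (-c - j) := by
        simp only [c3]
        push_cast
        exact f3_two _ _
      rw [e2]
      push_cast; ring
    have e3 : 2 * ∑ k ∈ range M, (if k % 2 = 0 then (c3 (c - k) : ℤ_[p]) else
        (c3 (c - ((k + M : ℕ) : ℤ)) : ℤ_[p])) * v p k =
        FF p c3 M c + y c + y (c - M) - FF p c3 M (c - M) := by
      simp only [hx, hy]
      rw [mul_sum, ← sum_add_distrib, ← sum_add_distrib, ← sum_sub_distrib]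
      refine sum_congr rfl fun k _ => ?_
      have e4 : c - ((k + M : ℕ) : ℤ) = c - M - k := by push_cast; ring
      rw [e4]
      rcases Nat.even_or_odd k with h | h
      · rw [if_pos (Nat.even_iff.1 h), h.neg_one_pow]; ring
      · rw [if_neg (by rw [Nat.odd_iff.1 h]; norm_num), h.neg_one_pow]; ring
    rw [e1, e3] at this
    exact this
  have xc : ∀ c, (M : ℤ_[p]) ∣ FF p c3 M c - FF p c3 M (c - M) := by
    intro c
    obtain ⟨a, ha⟩ := yr c
    obtain ⟨b, hb⟩ := yd c
    refine ⟨- a - b, ?_⟩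
    linear_combination (-1 : ℤ_[p]) * ha - hb - y3 c
  have hu : IsUnit (3 : ℤ_[p]) := by
    have := isUnit_nat p (k := 3) (by
      intro h
      exact h3 ((Nat.prime_dvd_prime_iff_eq hp.out Nat.prime_three).1 h))
    exact_mod_cast this
  rw [← hu.dvd_mul_left]
  obtain ⟨a, ha⟩ := xc c
  obtain ⟨b, hb⟩ := xc (c + M)
  rw [add_sub_cancel_right] at hb
  refine ⟨a - b, ?_⟩
  linear_combination x3 c + ha - hb

/-- base block, character modulo 3, `p = 3` -/
theorem block33 {M : ℕ} (h2 : p ≠ 2) (hM3 : 3 ∣ M) (hM : p ∣ M) (hModd : Odd M) (c : ℤ) (hc : (3 : ℤ) ∣ c) :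
    (M : ℤ_[p]) ∣ FF p c3 M c := by
  have hu := isUnit_two p h2
  rw [← hu.dvd_mul_left]
  have := sum_refl p hM (fun k => (-1) ^ k * (c3 (c - k) : ℤ_[p]))
  have e : ∑ k ∈ range M, ((-1) ^ (M - k) * (c3 (c - ((M - k : ℕ) : ℤ)) : ℤ_[p])) * v p k = FF p c3 M c := by
    rw [FF]
    refine sum_congr rfl fun k hk => ?_
    rw [mem_range] at hk
    have e1 : (-1 : ℤ_[p]) ^ (M - k) = - (-1) ^ k := by
      have h5 : (-1 : ℤ_[p]) ^ (M - k) * (-1) ^ k = -1 := by
        rw [← pow_add, Nat.sub_add_cancel hk.le, hModd.neg_one_pow]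
      have h6 : (-1 : ℤ_[p]) ^ k * (-1) ^ k = 1 := by
        rw [← mul_pow]; norm_num
      linear_combination (-1 : ℤ_[p]) ^ k * h5 - (-1 : ℤ_[p]) ^ (M - k) * h6
    have e2 : c3 (c - ((M - k : ℕ) : ℤ)) = - c3 (c - k) := by
      have h7 : (c : ZMod 3) = 0 := by
        rwa [ZMod.intCast_zmod_eq_zero_iff_dvd]
      have h8 : (M : ZMod 3) = 0 := by
        rwa [ZMod.natCast_eq_zero_iff]
      simp only [c3]
      rw [Nat.cast_sub hk.le]
      push_cast
      rw [h7, h8, ← f3_neg]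
      congr 1
    rw [e1, e2]
    push_cast; ring
  rw [e] at this
  have e' : ∑ k ∈ range M, (-1) ^ k * (c3 (c - k) : ℤ_[p]) * v p k = FF p c3 M c := rfl
  rw [e'] at this
  rw [two_mul]
  exact this

end Pool.Agent.H144R3.CB
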