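import Pool.Agent.H144R3.CBTwo

namespace Pool.Agent.H144R3.CB

open Finset

theorem v2_even (k : ℕ) : (-1 : ℤ_[2]) ^ (k + 1) * v 2 k = v 2 k := by
  rcases Nat.even_or_odd k with h | h
  · rw [v_dvd 2 h.two_dvd, mul_zero]
  · have : Even (k + 1) := h.add_one
    rw [this.neg_one_pow, one_mul]

theorem shift_sum (A m : ℕ) (hA : 2 ∣ A) (g : ℕ → ℤ_[2]) :
    ∑ k ∈ range (A + m), (if A < k then g k * v 2 k else 0) = ∑ k ∈ range m, g (A + k) * v 2 (A + k) := by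
  rw [sum_range_add]
  have h1 : ∑ k ∈ range A, (if A < k then g k * v 2 k else 0) = 0 := by
    apply sum_eq_zero
    intro k hk
    rw [mem_range] at hk
    rw [if_neg (by omega)]
  rw [h1, zero_add]
  refine sum_congr rfl fun k _ => ?_
  rcases Nat.eq_zero_or_pos k with h | h
  · subst h
    rw [add_zero, v_dvd 2 hA]
    simp
  · rw [if_pos (by omega)]

/-- for an even shift `A`, and `m` with even... -/
theorem shift_GG (A m : ℕ) (hA : 2 ∣ A) :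
    (A : ℤ_[2]) ∣ ∑ k ∈ range (A + m), (if A < k then (c3 (((A + m : ℕ) : ℤ) - k) : ℤ_[2]) * v 2 k else 0) -
      GG m m := by
  rw [shift_sum A m hA (fun k => (c3 (((A + m : ℕ) : ℤ) - k) : ℤ_[2])), GG, ← sum_sub_distrib]
  apply dvd_sum
  intro k _
  have a1 := v_add 2 hA k
  have e1 : ((A + m : ℕ) : ℤ) - ((A + k : ℕ) : ℤ) = m - k := by push_cast; ring
  rw [e1]
  refine ⟨- (c3 ((m : ℤ) - k) : ℤ_[2]) * (v 2 k * v 2 (A + k)), ?_⟩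
  linear_combination (- (c3 ((m : ℤ) - k) : ℤ_[2])) * a1

theorem key_l (q' l : ℕ) (hl : l < q') :
    ((2 * q' : ℕ) : ℤ_[2]) ∣ (((2 * q').choose l : ℕ) : ℤ_[2]) *
      (∑ k ∈ range (4 * q'), (if 4 * l < k then (c3 (((4 * q' : ℕ) : ℤ) - k) : ℤ_[2]) * v 2 k else 0) +
       ∑ k ∈ range (2 * q'), (if 2 * l < k then (c3 (((2 * q' : ℕ) : ℤ) - k) : ℤ_[2]) * v 2 k else 0)) := by
  have h1 := shift_GG (4 * l) (2 * (2 * (q' - l))) ⟨2 * l, by ring⟩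
  have h2 := shift_GG (2 * l) (2 * (q' - l)) ⟨l, by ring⟩
  have e1 : 4 * l + 2 * (2 * (q' - l)) = 4 * q' := by omega
  have e2 : 2 * l + 2 * (q' - l) = 2 * q' := by omega
  rw [e1] at h1
  rw [e2] at h2
  have h3 := GG_rel (2 * (q' - l)) (Dvd.intro _ rfl)
  have h4 := aa_mul 2 (2 * q') l
  obtain ⟨a, ha⟩ := h1
  obtain ⟨b, hb⟩ := h2
  obtain ⟨d, hd⟩ := h3
  have e3 : ((2 * (q' - l) : ℕ) : ℤ_[2]) = 2 * (q' - l) := by
    push_cast [Nat.cast_sub hl.le]; rfl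
  rw [e3] at hd
  push_cast at ha hb h4 ⊢
  refine ⟨(((2 * q').choose l : ℕ) : ℤ_[2]) * d + aa 2 (2 * q') l * (4 * a + 2 * b - 2 * d), ?_⟩
  push_cast at *
  linear_combination (((2 * q').choose l : ℕ) : ℤ_[2]) * ha + (((2 * q').choose l : ℕ) : ℤ_[2]) * hb +
    (((2 * q').choose l : ℕ) : ℤ_[2]) * hd - (4 * a + 2 * b - 2 * d) * h4

theorem partN (q' : ℕ) :
    ((2 * q' : ℕ) : ℤ_[2]) ∣ ∑ k ∈ range (4 * q'), (c3 (((4 * q' : ℕ) : ℤ) - k) : ℤ_[2]) *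
      (v 2 k * aa 2 (2 * (4 * q')) k) -
      ∑ l ∈ range q', (-1) ^ l * (((2 * q').choose l : ℕ) : ℤ_[2]) *
       ∑ k ∈ range (4 * q'), (if 4 * l < k then (c3 (((4 * q' : ℕ) : ℤ) - k) : ℤ_[2]) * v 2 k else 0) := by
  -- replace aa by b2
  have s1 : ((2 * q' : ℕ) : ℤ_[2]) ∣ ∑ k ∈ range (4 * q'), (c3 (((4 * q' : ℕ) : ℤ) - k) : ℤ_[2]) *
      (v 2 k * aa 2 (2 * (4 * q')) k) -
      ∑ k ∈ range (4 * q'), (c3 (((4 * q' : ℕ) : ℤ) - k) : ℤ_[2]) * (v 2 k * b2 (2 * q') (4 * q') k) := by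
    rw [← sum_sub_distrib]
    apply dvd_sum
    intro k hk
    rw [mem_range] at hk
    obtain ⟨z, hz⟩ := a2_b2 (2 * q') (4 * q') k (by omega)
    refine ⟨(c3 (((4 * q' : ℕ) : ℤ) - k) : ℤ_[2]) * v 2 k * (4 * z), ?_⟩
    push_cast at hz ⊢
    linear_combination (c3 (4 * (q' : ℤ) - k) : ℤ_[2]) * v 2 k * hz
  have s2 : ∑ k ∈ range (4 * q'), (c3 (((4 * q' : ℕ) : ℤ) - k) : ℤ_[2]) * (v 2 k * b2 (2 * q') (4 * q') k) =
      ∑ l ∈ range (2 * q'), (-1) ^ l * (((4 * q').choose l : ℕ) : ℤ_[2]) *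
       ∑ k ∈ range (4 * q'), (if 2 * l < k then (c3 (((4 * q' : ℕ) : ℤ) - k) : ℤ_[2]) * v 2 k else 0) := by
    simp_rw [mul_sum]
    rw [sum_comm]
    refine sum_congr rfl fun k _ => ?_
    rw [b2, mul_sum, mul_sum]
    refine sum_congr rfl fun l _ => ?_
    split_ifs with h
    · rw [pow_add]
      linear_combination ((c3 (((4 * q' : ℕ) : ℤ) - k) : ℤ_[2]) * (-1) ^ l * (((4 * q').choose l : ℕ) : ℤ_[2])) * v2_even k
    · ring
  -- split even and odd l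
  have s3 : ((2 * q' : ℕ) : ℤ_[2]) ∣ ∑ l ∈ range (2 * q'), (-1) ^ l * (((4 * q').choose l : ℕ) : ℤ_[2]) *
       ∑ k ∈ range (4 * q'), (if 2 * l < k then (c3 (((4 * q' : ℕ) : ℤ) - k) : ℤ_[2]) * v 2 k else 0) -
      ∑ l ∈ range (2 * q'), (if 2 ∣ l then (((4 * q').choose l : ℕ) : ℤ_[2]) *
       ∑ k ∈ range (4 * q'), (if 2 * l < k then (c3 (((4 * q' : ℕ) : ℤ) - k) : ℤ_[2]) * v 2 k else 0) else 0) := by
    rw [← sum_sub_distrib]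
    apply dvd_sum
    intro l _
    by_cases h : 2 ∣ l
    · rw [if_pos h]
      have : Even l := even_iff_two_dvd.2 h
      rw [this.neg_one_pow]
      simp
    · rw [if_neg h, sub_zero]
      have h5 := two_dvd_choose_odd (2 * q') l h
      have e : 2 * (2 * q') = 4 * q' := by ring
      rw [e] at h5
      have h6 : ((2 * q' : ℕ) : ℤ_[2]) ∣ (((4 * q').choose l : ℕ) : ℤ_[2]) :=
        dvd_trans (Dvd.intro_left 2 rfl) h5
      exact dvd_mul_of_dvd_left (dvd_mul_of_dvd_right h6 _) _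
  rw [sum_range_mul_ite 2 q' (by norm_num) (fun l => (((4 * q').choose l : ℕ) : ℤ_[2]) *
       ∑ k ∈ range (4 * q'), (if 2 * l < k then (c3 (((4 * q' : ℕ) : ℤ) - k) : ℤ_[2]) * v 2 k else 0))] at s3
  have s4 : ((2 * q' : ℕ) : ℤ_[2]) ∣ ∑ l ∈ range q', (((4 * q').choose (2 * l) : ℕ) : ℤ_[2]) *
       ∑ k ∈ range (4 * q'), (if 2 * (2 * l) < k then (c3 (((4 * q' : ℕ) : ℤ) - k) : ℤ_[2]) * v 2 k else 0) -
      ∑ l ∈ range q', (-1) ^ l * (((2 * q').choose l : ℕ) : ℤ_[2]) *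
       ∑ k ∈ range (4 * q'), (if 4 * l < k then (c3 (((4 * q' : ℕ) : ℤ) - k) : ℤ_[2]) * v 2 k else 0) := by
    rw [← sum_sub_distrib]
    apply dvd_sum
    intro l _
    have h5 := J2 (2 * q') l
    have e : 2 * (2 * q') = 4 * q' := by ring
    rw [e] at h5
    obtain ⟨z, hz⟩ := h5
    have e2 : 2 * (2 * l) = 4 * l := by ring
    rw [e2]
    set W := ∑ k ∈ range (4 * q'), (if 4 * l < k then (c3 (((4 * q' : ℕ) : ℤ) - k) : ℤ_[2]) * v 2 k else 0)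
    refine ⟨4 * q' * z * W, ?_⟩
    push_cast at hz ⊢
    linear_combination W * hz
  rw [s2] at s1
  have := dvd_add (dvd_add s1 s3) s4
  convert this using 1
  ring

theorem partQ (q' : ℕ) :
    ((2 * q' : ℕ) : ℤ_[2]) ∣ ∑ k ∈ range (2 * q'), (c3 (((2 * q' : ℕ) : ℤ) - k) : ℤ_[2]) *
      (v 2 k * aa 2 (2 * (2 * q')) k) -
      ∑ l ∈ range q', (-1) ^ l * (((2 * q').choose l : ℕ) : ℤ_[2]) *
       ∑ k ∈ range (2 * q'), (if 2 * l < k then (c3 (((2 * q' : ℕ) : ℤ) - k) : ℤ_[2]) * v 2 k else 0) := by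
  have s1 : ((2 * q' : ℕ) : ℤ_[2]) ∣ ∑ k ∈ range (2 * q'), (c3 (((2 * q' : ℕ) : ℤ) - k) : ℤ_[2]) *
      (v 2 k * aa 2 (2 * (2 * q')) k) -
      ∑ k ∈ range (2 * q'), (c3 (((2 * q' : ℕ) : ℤ) - k) : ℤ_[2]) * (v 2 k * b2 q' (2 * q') k) := by
    rw [← sum_sub_distrib]
    apply dvd_sum
    intro k hk
    rw [mem_range] at hk
    obtain ⟨z, hz⟩ := a2_b2 q' (2 * q') k (by omega)
    refine ⟨(c3 (((2 * q' : ℕ) : ℤ) - k) : ℤ_[2]) * v 2 k * (2 * z), ?_⟩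
    push_cast at hz ⊢
    linear_combination (c3 (2 * (q' : ℤ) - k) : ℤ_[2]) * v 2 k * hz
  have s2 : ∑ k ∈ range (2 * q'), (c3 (((2 * q' : ℕ) : ℤ) - k) : ℤ_[2]) * (v 2 k * b2 q' (2 * q') k) =
      ∑ l ∈ range q', (-1) ^ l * (((2 * q').choose l : ℕ) : ℤ_[2]) *
       ∑ k ∈ range (2 * q'), (if 2 * l < k then (c3 (((2 * q' : ℕ) : ℤ) - k) : ℤ_[2]) * v 2 k else 0) := by
    simp_rw [mul_sum]
    rw [sum_comm]
    refine sum_congr rfl fun k _ => ?_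
    rw [b2, mul_sum, mul_sum]
    refine sum_congr rfl fun l _ => ?_
    split_ifs with h
    · rw [pow_add]
      linear_combination ((c3 (((2 * q' : ℕ) : ℤ) - k) : ℤ_[2]) * (-1) ^ l * (((2 * q').choose l : ℕ) : ℤ_[2])) * v2_even k
    · ring
  rw [s2] at s1
  exact s1

theorem main2 (q' : ℕ) :
    ((4 * q' : ℕ) : ℤ_[2]) ^ 2 ∣ (SS c3 (4 * q') : ℤ_[2]) + SS c3 (2 * q') := by
  have hkey : ((2 * q' : ℕ) : ℤ_[2]) ∣
      ∑ k ∈ range (4 * q'), (c3 (((4 * q' : ℕ) : ℤ) - k) : ℤ_[2]) * (v 2 k * aa 2 (2 * (4 * q')) k) +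
      ∑ k ∈ range (2 * q'), (c3 (((2 * q' : ℕ) : ℤ) - k) : ℤ_[2]) * (v 2 k * aa 2 (2 * (2 * q')) k) := by
    have h1 := partN q'
    have h2 := partQ q'
    have h3 : ((2 * q' : ℕ) : ℤ_[2]) ∣ ∑ l ∈ range q', (-1) ^ l * ((((2 * q').choose l : ℕ) : ℤ_[2]) *
      (∑ k ∈ range (4 * q'), (if 4 * l < k then (c3 (((4 * q' : ℕ) : ℤ) - k) : ℤ_[2]) * v 2 k else 0) +
       ∑ k ∈ range (2 * q'), (if 2 * l < k then (c3 (((2 * q' : ℕ) : ℤ) - k) : ℤ_[2]) * v 2 k else 0))) := by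
      apply dvd_sum
      intro l hl
      rw [mem_range] at hl
      exact dvd_mul_of_dvd_right (key_l q' l hl) _
    have h4 := dvd_add (dvd_add h1 h2) h3
    convert h4 using 1
    have : ∀ l : ℕ, (-1 : ℤ_[2]) ^ l * ((((2 * q').choose l : ℕ) : ℤ_[2]) *
      (∑ k ∈ range (4 * q'), (if 4 * l < k then (c3 (((4 * q' : ℕ) : ℤ) - k) : ℤ_[2]) * v 2 k else 0) +
       ∑ k ∈ range (2 * q'), (if 2 * l < k then (c3 (((2 * q' : ℕ) : ℤ) - k) : ℤ_[2]) * v 2 k else 0))) =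
       (-1) ^ l * (((2 * q').choose l : ℕ) : ℤ_[2]) *
       ∑ k ∈ range (4 * q'), (if 4 * l < k then (c3 (((4 * q' : ℕ) : ℤ) - k) : ℤ_[2]) * v 2 k else 0) +
       (-1) ^ l * (((2 * q').choose l : ℕ) : ℤ_[2]) *
       ∑ k ∈ range (2 * q'), (if 2 * l < k then (c3 (((2 * q' : ℕ) : ℤ) - k) : ℤ_[2]) * v 2 k else 0) := by
      intro l; ring
    simp_rw [this, sum_add_distrib]
    ring
  -- even part and odd part of SS (4 q')
  have s1 : (SS c3 (4 * q') : ℤ_[2]) =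
      ∑ k ∈ range (2 * (2 * q')), (if 2 ∣ k then (c3 (((4 * q' : ℕ) : ℤ) - k) : ℤ_[2]) *
        (((2 * (4 * q')).choose k : ℕ) : ℤ_[2]) else 0) +
      2 * (4 * q' : ℕ) * ∑ k ∈ range (4 * q'), (c3 (((4 * q' : ℕ) : ℤ) - k) : ℤ_[2]) *
        (v 2 k * aa 2 (2 * (4 * q')) k) := by
    have e : 2 * (2 * q') = 4 * q' := by ring
    rw [SS, Int.cast_sum, mul_sum, e, ← sum_add_distrib]
    refine sum_congr rfl fun k _ => ?_
    by_cases h : 2 ∣ k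
    · rw [if_pos h, v_dvd 2 h]; push_cast; ring
    · rw [if_neg h]
      have h1 := mul_v 2 h
      have h2 := aa_mul 2 (2 * (4 * q')) k
      rw [Int.cast_mul, Int.cast_natCast]
      have e4 : ((2 * (4 * q') : ℕ) : ℤ_[2]) = 2 * ((4 * q' : ℕ) : ℤ_[2]) := by push_cast; ring
      rw [e4] at h2
      linear_combination (-(c3 (((4 * q' : ℕ) : ℤ) - k) : ℤ_[2]) * (((2 * (4 * q')).choose k : ℕ) : ℤ_[2])) * h1 -
        (c3 (((4 * q' : ℕ) : ℤ) - k) : ℤ_[2]) * v 2 k * h2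
  rw [sum_range_mul_ite 2 (2 * q') (by norm_num) (fun k => (c3 (((4 * q' : ℕ) : ℤ) - k) : ℤ_[2]) *
        (((2 * (4 * q')).choose k : ℕ) : ℤ_[2]))] at s1
  have s2 : ((4 * q' : ℕ) : ℤ_[2]) ^ 2 ∣ ∑ i ∈ range (2 * q'), (c3 (((4 * q' : ℕ) : ℤ) - ((2 * i : ℕ) : ℤ)) : ℤ_[2]) *
        (((2 * (4 * q')).choose (2 * i) : ℕ) : ℤ_[2]) -
      ∑ i ∈ range (2 * q'), (- (c3 (((2 * q' : ℕ) : ℤ) - i) : ℤ_[2])) *
        ((-1) ^ i * (((2 * (2 * q')).choose i : ℕ) : ℤ_[2])) := by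
    rw [← sum_sub_distrib]
    apply dvd_sum
    intro i _
    have h5 := J2 (4 * q') i
    have e : 2 * (2 * q') = 4 * q' := by ring
    obtain ⟨z, hz⟩ := h5
    have e2 : c3 (((4 * q' : ℕ) : ℤ) - ((2 * i : ℕ) : ℤ)) = - c3 (((2 * q' : ℕ) : ℤ) - i) := by
      have : ((4 * q' : ℕ) : ℤ) - ((2 * i : ℕ) : ℤ) = 2 * (((2 * q' : ℕ) : ℤ) - i) := by push_cast; ring
      rw [this]
      have h6 : ∀ a : ZMod 3, f3 (2 * a) = - f3 a := by decide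
      simp only [c3]
      rw [← h6]
      push_cast; rfl
    rw [e2, e]
    refine ⟨- 2 * (c3 (((2 * q' : ℕ) : ℤ) - i) : ℤ_[2]) * z, ?_⟩
    rw [Int.cast_neg]
    linear_combination (- (c3 (((2 * q' : ℕ) : ℤ) - i) : ℤ_[2])) * hz
  have s3 : ∑ i ∈ range (2 * q'), (- (c3 (((2 * q' : ℕ) : ℤ) - i) : ℤ_[2])) *
        ((-1) ^ i * (((2 * (2 * q')).choose i : ℕ) : ℤ_[2])) = - (SS c3 (2 * q') : ℤ_[2]) +
      2 * (4 * q' : ℕ) * ∑ k ∈ range (2 * q'), (c3 (((2 * q' : ℕ) : ℤ) - k) : ℤ_[2]) *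
        (v 2 k * aa 2 (2 * (2 * q')) k) := by
    rw [SS, Int.cast_sum, mul_sum, ← sum_neg_distrib, ← sum_add_distrib]
    refine sum_congr rfl fun k _ => ?_
    rcases Nat.even_or_odd k with h | h
    · rw [v_dvd 2 h.two_dvd, h.neg_one_pow]; push_cast; ring
    · have h' : ¬ 2 ∣ k := by
        rw [← even_iff_two_dvd]; exact Nat.not_even_iff_odd.2 h
      have h1 := mul_v 2 h'
      have h2 := aa_mul 2 (2 * (2 * q')) k
      rw [Int.cast_mul, Int.cast_natCast, h.neg_one_pow]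
      have e4 : ((2 * (2 * q') : ℕ) : ℤ_[2]) = ((4 * q' : ℕ) : ℤ_[2]) := by push_cast; ring
      rw [e4] at h2
      linear_combination (-2 * (c3 (((2 * q' : ℕ) : ℤ) - k) : ℤ_[2]) * (((2 * (2 * q')).choose k : ℕ) : ℤ_[2])) * h1 -
        2 * (c3 (((2 * q' : ℕ) : ℤ) - k) : ℤ_[2]) * v 2 k * h2
  rw [s3] at s2
  obtain ⟨z, hz⟩ := s2
  obtain ⟨w, hw⟩ := hkey
  rw [s1]
  have e5 : ((4 * q' : ℕ) : ℤ_[2]) = 2 * ((2 * q' : ℕ) : ℤ_[2]) := by push_cast; ring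
  refine ⟨z + w, ?_⟩
  linear_combination hz + 2 * ((4 * q' : ℕ) : ℤ_[2]) * hw - ((4 * q' : ℕ) : ℤ_[2]) * w * e5

end Pool.Agent.H144R3.CB
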