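import Pool.Agent.H144R3.CBFour
import Pool.Agent.H144R3.CBTwoMain

namespace Pool.Agent.H144R3.CB

open Finset

section

variable (p : ℕ) [hp : Fact p.Prime]

/-- passing from the blocks `p^s` to the full truncated sums. -/
theorem FF_full (h2 : p ≠ 2) (χ : ℤ → ℤ) (h0 : χ 0 = 0) (κ : ℤ_[p]) (r : ℕ)
    (hb : ∀ s, s ≠ 0 → s ≤ r + 1 → ∀ c : ℤ, (p : ℤ) ∣ c →
      ((p ^ s : ℕ) : ℤ_[p]) ∣ FF p χ (p ^ s) c - κ * (χ c + χ (c - (p ^ s : ℕ))))
    (l : ℕ) (hl : l < p ^ r) :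
    ((p * (p ^ r - l) : ℕ) : ℤ_[p]) ∣
      FF p χ (p * (p ^ r - l)) (p * (p ^ r - l) : ℕ) - κ * χ ((p * (p ^ r - l) : ℕ)) := by
  set m := p * (p ^ r - l) with hm
  have hm0 : m ≠ 0 := by
    apply Nat.mul_ne_zero hp.out.ne_zero
    omega
  obtain ⟨s, u, hu, hmu⟩ := Nat.exists_eq_pow_mul_and_not_dvd hm0 p hp.out.ne_one
  have hs0 : s ≠ 0 := by
    rintro rfl
    rw [pow_zero, one_mul] at hmu
    apply hu
    rw [← hmu, hm]
    exact Dvd.intro _ rfl
  have hle : m ≤ p ^ (r + 1) := by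
    rw [hm, pow_succ, mul_comm (p ^ r) p]
    exact Nat.mul_le_mul_left p (Nat.sub_le _ _)
  have hu0 : 0 < u := by
    rcases Nat.eq_zero_or_pos u with h | h
    · rw [h, mul_zero] at hmu; exact absurd hmu hm0
    · exact h
  have hsr : s ≤ r + 1 := by
    have h1 : p ^ s ≤ p ^ (r + 1) := by
      calc p ^ s = p ^ s * 1 := (mul_one _).symm
        _ ≤ p ^ s * u := Nat.mul_le_mul_left _ hu0
        _ = m := hmu.symm
        _ ≤ _ := hle
    exact (Nat.pow_le_pow_iff_right hp.out.one_lt).1 h1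
  have hodd : Odd (p ^ s) := (hp.out.odd_of_ne_two h2).pow
  have hpM : p ∣ p ^ s := dvd_pow_self p hs0
  have hpm : (p : ℤ) ∣ (m : ℤ) := by
    exact_mod_cast (Dvd.intro _ rfl : p ∣ p * (p ^ r - l))
  have h3 := FF_block p χ κ (p ^ s) hpM hodd (hb s hs0 hsr) u m hpm
  rw [← hmu] at h3
  have h4 : (m : ℤ) - ((p ^ s : ℕ) : ℤ) * u = 0 := by
    rw [hmu]; push_cast; ring
  rw [h4, h0] at h3
  have h5 : (m : ℤ_[p]) = ((p ^ s : ℕ) : ℤ_[p]) * u := by rw [hmu]; push_cast; ring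
  rw [h5, (isUnit_nat p hu).mul_right_dvd]
  simpa using h3

theorem SS_three (h2 : p ≠ 2) (r : ℕ) :
    (p : ℤ) ^ (2 * (r + 1)) ∣ SS c3 (p ^ (r + 1)) - c3 p * SS c3 (p ^ r) := by
  have hmul : ∀ x, c3 (p * x) = c3 p * c3 x := by
    intro x
    simp only [c3, Int.cast_mul, f3_mul]
  have h := main p h2 c3 (c3 p) hmul 0 (p ^ r) (by
    intro l hl
    apply FF_full p h2 c3 (by decide) 0 r _ l hl
    intro s hs _ c hc
    rw [zero_mul, sub_zero]
    by_cases h3 : p = 3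
    · apply block33 p h2
      · rw [h3]; exact dvd_pow_self 3 hs
      · exact dvd_pow_self p hs
      · exact (hp.out.odd_of_ne_two h2).pow
      · rw [h3] at hc; exact_mod_cast hc
    · exact block3 p h2 h3 hs c)
  rw [← PadicInt.pow_p_dvd_int_iff]
  have e : p * p ^ r = p ^ (r + 1) := by ring
  rw [e] at h
  have e2 : ((p : ℤ_[p])) ^ (2 * (r + 1)) = ((p ^ (r + 1) : ℕ) : ℤ_[p]) ^ 2 := by
    push_cast; ring
  rw [e2]
  simpa using h

theorem card_units (r : ℕ) :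
    ((range (p ^ (r + 1))).filter (fun j => ¬ p ∣ j)).card = p ^ (r + 1) - p ^ r := by
  have h1 := Finset.card_filter_add_card_filter_not (s := range (p ^ (r + 1))) (fun j => p ∣ j)
  have h2 : ((range (p ^ (r + 1))).filter (fun j => p ∣ j)).card = p ^ r := by
    rw [card_filter]
    have := sum_range_mul_ite p (p ^ r) hp.out.pos (fun _ => 1)
    have e : p * p ^ r = p ^ (r + 1) := by ring
    rw [e] at this
    rw [this]
    simp
  rw [h2, card_range] at h1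
  omega

theorem SS_four (h2 : p ≠ 2) (r : ℕ) :
    (p : ℤ) ^ (2 * (r + 1)) ∣ SS c4 (p ^ (r + 1)) -
      c4 p * 2 ^ (p ^ (r + 1) - p ^ r) * SS c4 (p ^ r) := by
  have hmul : ∀ x, c4 (p * x) = c4 p * c4 x := by
    intro x
    simp only [c4, Int.cast_mul, f4_mul]
  have hpodd : Odd p := hp.out.odd_of_ne_two h2
  set n := p ^ (r + 1) with hn
  have hnodd : Odd n := hpodd.pow
  have hpn : p ∣ n := dvd_pow_self p (by omega)
  obtain ⟨κ, hκ⟩ : ∃ κ : ℤ_[p], 4 * κ = ∑ k ∈ range n, (-1) ^ k * v p k := by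
    have hu : IsUnit (4 : ℤ_[p]) := by
      have := isUnit_two p h2
      have h4 : (4 : ℤ_[p]) = 2 * 2 := by norm_num
      rw [h4]; exact this.mul this
    obtain ⟨w, hw⟩ := hu.dvd (a := ∑ k ∈ range n, (-1) ^ k * v p k)
    exact ⟨w, hw.symm⟩
  have h := main p h2 c4 (c4 p) hmul κ (p ^ r) (by
    intro l hl
    apply FF_full p h2 c4 (by decide) κ r _ l hl
    intro s hs hsr c hc
    apply block4 p h2 (dvd_pow_self p hs) hpodd.pow κ
    rw [hκ]
    have hodd' : Odd (p ^ (r + 1 - s)) := hpodd.pow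
    obtain ⟨u, hu⟩ := hodd'
    have := alt_block p (dvd_pow_self p hs) (hpodd.pow (n := s)) u
    have e : p ^ s * (2 * u + 1) = n := by
      rw [← hu, ← pow_add, hn]; congr 1; omega
    rwa [e] at this)
  have hf := fermat_two p h2 hpn hnodd
  rw [hn, card_units, ← hn] at hf
  have hs := sum_v_dvd p h2 hpn
  have hodds : 2 * ∑ k ∈ range n, (if k % 2 = 0 then 0 else v p k) =
      ∑ k ∈ range n, v p k - ∑ k ∈ range n, (-1) ^ k * v p k := by
    rw [mul_sum, ← sum_sub_distrib]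
    refine sum_congr rfl fun k _ => ?_
    rcases Nat.even_or_odd k with h | h
    · rw [if_pos (Nat.even_iff.1 h), h.neg_one_pow]; ring
    · rw [if_neg (by rw [Nat.odd_iff.1 h]; norm_num), h.neg_one_pow]; ring
  rw [← hκ] at hodds
  rw [← PadicInt.pow_p_dvd_int_iff]
  have e : p * p ^ r = n := by rw [hn]; ring
  rw [e] at h
  have e2 : ((p : ℤ_[p])) ^ (2 * (r + 1)) = ((n : ℕ) : ℤ_[p]) ^ 2 := by
    rw [hn]; push_cast; ring
  rw [e2]
  have hu2 := isUnit_two p h2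
  rw [← hu2.dvd_mul_left]
  obtain ⟨a, ha⟩ := h
  obtain ⟨b, hb⟩ := hf
  obtain ⟨d, hd⟩ := hs
  set O := ∑ k ∈ range n, (if k % 2 = 0 then 0 else v p k) with hO
  rw [hd] at hodds
  refine ⟨2 * a - 2 * (c4 p * SS c4 (p ^ r) : ℤ) * b - (c4 p * SS c4 (p ^ r) : ℤ) * d, ?_⟩
  push_cast
  linear_combination 2 * ha - 2 * ((c4 p : ℤ_[p]) * SS c4 (p ^ r)) * hb - (n : ℤ_[p]) * ((c4 p : ℤ_[p]) * SS c4 (p ^ r)) * hodds

end

theorem SS_two (r : ℕ) : (2 : ℤ) ^ (2 * (r + 1)) ∣ SS c3 (2 ^ (r + 1)) + SS c3 (2 ^ r) := by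
  cases r with
  | zero => decide +kernel
  | succ r =>
    have h := main2 (2 ^ r)
    have e : 4 * 2 ^ r = 2 ^ (r + 1 + 1) := by ring
    have e' : 2 * 2 ^ r = 2 ^ (r + 1) := by ring
    rw [e, e'] at h
    have h2 := (PadicInt.pow_p_dvd_int_iff (p := 2) (2 * (r + 1 + 1))
      (SS c3 (2 ^ (r + 1 + 1)) + SS c3 (2 ^ (r + 1)))).1 (by
        have e2 : (((2 : ℕ) : ℤ_[2])) ^ (2 * (r + 1 + 1)) = ((2 ^ (r + 1 + 1) : ℕ) : ℤ_[2]) ^ 2 := by
          push_cast; ring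
        rw [e2]
        push_cast at h ⊢
        exact h)
    exact_mod_cast h2

theorem SS_eq_TT (χ : ℤ → ℤ) (n : ℕ) : SS χ n = TT χ n := rfl

theorem SS_three_eq (n : ℕ) : SS c3 n = ∑ k ∈ range n, (((2 * k).choose k : ℕ) : ℤ) := by
  rw [SS_eq_TT]
  induction n with
  | zero => simp [TT]
  | succ n ih =>
    rw [TT_succ c3 (by decide), sum_range_succ, ← ih, add_comm]
    have h1 : c3 1 = 1 := by decide
    rw [h1, one_mul]
    congr 1
    rw [TT]
    refine sum_congr rfl fun k _ => ?_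
    congr 1
    have h3 : ∀ a : ZMod 3, f3 (a + 1) + 2 * f3 a + f3 (a - 1) = f3 a := by decide
    have := h3 ((n : ZMod 3) - k)
    simp only [c3]
    push_cast
    exact this

theorem SS_four_eq (n : ℕ) : 2 * (SS c4 n : ℚ) =
    2 ^ n * ∑ k ∈ range n, (((2 * k).choose k : ℕ) : ℚ) / 2 ^ k := by
  rw [SS_eq_TT]
  induction n with
  | zero => simp [TT]
  | succ n ih =>
    have hT : TT c4 (n + 1) = ((2 * n).choose n : ℕ) + 2 * TT c4 n := by
      rw [TT_succ c4 (by decide)]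
      have h1 : c4 1 = 1 := by decide
      rw [h1, one_mul, TT, mul_sum]
      congr 1
      refine sum_congr rfl fun k _ => ?_
      have h3 : ∀ a : ZMod 4, f4 (a + 1) + 2 * f4 a + f4 (a - 1) = 2 * f4 a := by decide
      have := h3 ((n : ZMod 4) - k)
      simp only [c4]
      push_cast
      rw [this]; ring
    rw [hT, sum_range_succ]
    push_cast
    rw [mul_add, mul_add]
    have h2n : (2 : ℚ) ^ n ≠ 0 := by positivity
    have : (2 : ℚ) ^ (n + 1) * ((((2 * n).choose n : ℕ) : ℚ) / 2 ^ n) = 2 * ((2 * n).choose n : ℕ) := by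
      rw [pow_succ]; field_simp
    rw [this]
    linear_combination 2 * ih

end Pool.Agent.H144R3.CB
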