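import Mathlib

namespace Pool.Agent.H144R3.CB

open Finset

theorem choose_two_step (n k : ℕ) :
    (2 * (n + 1)).choose (k + 1) = (2 * n).choose (k + 1) + 2 * (2 * n).choose k +
      (if k = 0 then 0 else (2 * n).choose (k - 1)) := by
  have h : 2 * (n + 1) = 2 * n + 1 + 1 := by ring
  rw [h]
  cases k with
  | zero =>
    simp [Nat.choose_succ_succ]
    ring
  | succ k =>
    rw [Nat.choose_succ_succ, Nat.choose_succ_succ (2 * n) (k + 1), Nat.choose_succ_succ (2 * n) k]
    simp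
    ring

/-- weighted sums of binomial coefficients -/
def TT (χ : ℤ → ℤ) (n : ℕ) : ℤ :=
  ∑ k ∈ range n, χ ((n : ℤ) - k) * ((2 * n).choose k : ℕ)

theorem TT_succ (χ : ℤ → ℤ) (h0 : χ 0 = 0) (n : ℕ) :
    TT χ (n + 1) = χ 1 * ((2 * n).choose n : ℕ) +
      ∑ k ∈ range n, (χ ((n : ℤ) - k + 1) + 2 * χ ((n : ℤ) - k) + χ ((n : ℤ) - k - 1)) *
        ((2 * n).choose k : ℕ) := by
  have e0 : ∀ k, ((2 * (n + 1)).choose k : ℤ) = ((2 * n).choose k : ℤ) +
      2 * (if k = 0 then 0 else ((2 * n).choose (k - 1) : ℤ)) +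
      (if k ≤ 1 then 0 else ((2 * n).choose (k - 2) : ℤ)) := by
    intro k
    cases k with
    | zero => simp
    | succ k =>
      rw [choose_two_step]
      cases k with
      | zero => simp
      | succ k => simp
  rw [TT]
  simp_rw [e0, mul_add, sum_add_distrib]
  have s1 : ∑ x ∈ range (n + 1), χ (((n + 1 : ℕ) : ℤ) - x) * ((2 * n).choose x : ℤ) =
      χ 1 * ((2 * n).choose n : ℕ) + ∑ k ∈ range n, χ ((n : ℤ) - k + 1) * ((2 * n).choose k : ℤ) := by
    rw [sum_range_succ, add_comm]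
    congr 1
    · congr 2; push_cast; ring
    · refine sum_congr rfl fun k _ => ?_
      congr 2; push_cast; ring
  have s2 : ∑ x ∈ range (n + 1), χ (((n + 1 : ℕ) : ℤ) - x) *
      (2 * (if x = 0 then 0 else ((2 * n).choose (x - 1) : ℤ))) =
      ∑ k ∈ range n, 2 * χ ((n : ℤ) - k) * ((2 * n).choose k : ℤ) := by
    rw [sum_range_succ']
    simp only [Nat.add_one_ne_zero, if_false, if_true, mul_zero, add_zero, Nat.add_sub_cancel]
    refine sum_congr rfl fun k _ => ?_
    have : (((n + 1 : ℕ) : ℤ) - ((k + 1 : ℕ) : ℤ)) = (n : ℤ) - k := by push_cast; ring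
    rw [this]; ring
  have s3 : ∑ x ∈ range (n + 1), χ (((n + 1 : ℕ) : ℤ) - x) *
      (if x ≤ 1 then 0 else ((2 * n).choose (x - 2) : ℤ)) =
      ∑ k ∈ range n, χ ((n : ℤ) - k - 1) * ((2 * n).choose k : ℤ) := by
    rw [sum_range_succ']
    simp only [zero_le, if_true, mul_zero, add_zero]
    cases n with
    | zero => simp
    | succ n =>
      rw [sum_range_succ']
      simp only [zero_add, le_refl, if_true, mul_zero, add_zero]
      rw [sum_range_succ]
      have : (((n + 1 : ℕ) : ℤ) - (n : ℤ) - 1) = 0 := by push_cast; ring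
      rw [this, h0, zero_mul, add_zero]
      refine sum_congr rfl fun k _ => ?_
      rw [if_neg (by omega)]
      have e1 : (((n + 1 + 1 : ℕ) : ℤ) - ((k + 1 + 1 : ℕ) : ℤ)) = ((n + 1 : ℕ) : ℤ) - k - 1 := by
        push_cast; ring
      rw [e1]
      congr 2
  rw [s1, s2, s3]
  simp_rw [add_mul, sum_add_distrib]
  ring

end Pool.Agent.H144R3.CB
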