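import Pool.Agent.H144R3.CBChar
import Pool.Agent.H144R3.CBSums

namespace Pool.Agent.H144R3.CB

open Finset

variable (p : ℕ) [hp : Fact p.Prime]

theorem f4_a : ∀ M k : ZMod 4, f4 M ≠ 0 → f4 (M - k + 1) = f4 M * f4 k := by decide
theorem f4_b : ∀ M k : ZMod 4, f4 M ≠ 0 → f4 k = 0 → f4 (k + 1) = f4 (k + 1) - f4 M * f4 k := by decide
theorem f4_c : ∀ M k : ZMod 4, f4 M ≠ 0 → f4 k ≠ 0 → f4 (k + M + 1) = f4 (k + 1) - f4 M * f4 k := by decide
theorem f4_even : ∀ t : ZMod 4, f4 (t + t) = 0 := by decide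
theorem f4_odd : ∀ t : ZMod 4, f4 (2 * t + 1) ≠ 0 := by decide
theorem f4_sq : ∀ M : ZMod 4, f4 M ≠ 0 → f4 M * f4 M = 1 := by decide
theorem f4_d : ∀ c k : ZMod 4, f4 c = 0 → f4 k ≠ 0 → f4 (c - k) = - (f4 (c + 1) * f4 k) := by decide
theorem f4_d' : ∀ c k : ZMod 4, f4 c = 0 → f4 k = 0 → f4 (c - k) = 0 := by decide
theorem f4_e : ∀ c M : ZMod 4, f4 c = 0 → f4 M ≠ 0 → f4 (c - M) = - (f4 (c + 1) * f4 M) := by decide
theorem f4_f : ∀ c M k : ZMod 4, f4 c ≠ 0 → f4 M ≠ 0 → f4 k ≠ 0 →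
  f4 (c - (M - k)) = f4 (c - M + 1) * f4 k := by decide
theorem f4_f' : ∀ c M k : ZMod 4, f4 c ≠ 0 → f4 M ≠ 0 → f4 k = 0 →
  f4 (c - (M - k)) = 0 := by decide
theorem f4_g : ∀ c M : ZMod 4, f4 c ≠ 0 → f4 M ≠ 0 → f4 (c - M) = 0 ∧
  f4 c = f4 (c - M + 1) * f4 M := by decide
theorem f4_neg_one_pow (j : ℕ) : f4 (2 * j + 1) = (-1) ^ j := by
  have h1 : f4 1 = 1 := by decide
  have h2 : ∀ x : ZMod 4, f4 (x + 2) = - f4 x := by decide
  induction j with
  | zero => simpa using h1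
  | succ j ih =>
    rw [pow_succ, ← ih]
    have := h2 (2 * (j : ZMod 4) + 1)
    have e : (2 * (((j + 1 : ℕ)) : ZMod 4) + 1) = 2 * (j : ZMod 4) + 1 + 2 := by push_cast; ring
    rw [e, this]; ring

theorem f4_nat_even {k : ℕ} (h : Even k) : f4 (k : ZMod 4) = 0 := by
  obtain ⟨t, rfl⟩ := h
  push_cast
  exact f4_even _

theorem f4_nat_odd {k : ℕ} (h : Odd k) : f4 (k : ZMod 4) ≠ 0 := by
  obtain ⟨t, rfl⟩ := h
  push_cast
  exact f4_odd _

/-- base block, character modulo 4 -/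
theorem block4 (h2 : p ≠ 2) {M : ℕ} (hM : p ∣ M) (hModd : Odd M) (κ : ℤ_[p])
    (hκ : (M : ℤ_[p]) ∣ 4 * κ - ∑ k ∈ range M, (-1) ^ k * v p k) (c : ℤ) :
    (M : ℤ_[p]) ∣ FF p c4 M c - κ * (c4 c + c4 (c - M)) := by
  have hM2 : M % 2 = 1 := Nat.odd_iff.1 hModd
  have hMne : f4 (M : ZMod 4) ≠ 0 := f4_nat_odd hModd
  set X : ℤ_[p] := ∑ k ∈ range M, (c4 k : ℤ_[p]) * v p k with hX
  have hMsq : ((c4 M : ℤ) : ℤ_[p]) * c4 M = 1 := by
    have := f4_sq _ hMne
    have e : c4 M * c4 M = 1 := by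
      simp only [c4, Int.cast_natCast]; exact this
    exact_mod_cast e
  -- doubling
  have hd := sum_dbl p h2 hM hM2 (fun k => (f4 ((k : ZMod 4) + 1) : ℤ_[p]))
  have e1 : ∑ j ∈ range M, (f4 (((2 * j : ℕ) : ZMod 4) + 1) : ℤ_[p]) * v p j =
      ∑ k ∈ range M, (-1) ^ k * v p k := by
    refine sum_congr rfl fun j _ => ?_
    have := f4_neg_one_pow j
    push_cast
    rw [this]
    push_cast; ring
  have e2 : ∑ k ∈ range M, (if k % 2 = 0 then (f4 ((k : ZMod 4) + 1) : ℤ_[p]) else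
      (f4 (((k + M : ℕ) : ZMod 4) + 1) : ℤ_[p])) * v p k =
      ∑ k ∈ range M, (f4 ((k : ZMod 4) + 1) : ℤ_[p]) * v p k - c4 M * X := by
    rw [hX, mul_sum, ← sum_sub_distrib]
    refine sum_congr rfl fun k _ => ?_
    rcases Nat.even_or_odd k with h | h
    · rw [if_pos (Nat.even_iff.1 h)]
      simp only [c4, Int.cast_natCast]
      rw [f4_nat_even h]; push_cast; ring
    · rw [if_neg (by rw [Nat.odd_iff.1 h]; norm_num)]
      simp only [c4, Int.cast_natCast]
      have := f4_c (M : ZMod 4) (k : ZMod 4) hMne (f4_nat_odd h)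
      push_cast
      rw [this]; push_cast; ring
  have hr := sum_refl p hM (fun k => (f4 ((k : ZMod 4) + 1) : ℤ_[p]))
  have e3 : ∑ k ∈ range M, (f4 (((M - k : ℕ) : ZMod 4) + 1) : ℤ_[p]) * v p k = c4 M * X := by
    rw [hX, mul_sum]
    refine sum_congr rfl fun k hk => ?_
    rw [mem_range] at hk
    rw [Nat.cast_sub hk.le, f4_a _ _ hMne]
    simp only [c4, Int.cast_natCast]
    push_cast; ring
  rw [e1, e2] at hd
  rw [e3] at hr
  have hX0 : (M : ℤ_[p]) ∣ X + c4 M * κ := by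
    obtain ⟨a, ha⟩ := hd
    obtain ⟨b, hb⟩ := hr
    obtain ⟨d, hd⟩ := hκ
    have hu : IsUnit (4 : ℤ_[p]) := by
      have := isUnit_two p h2
      have h4 : (4 : ℤ_[p]) = 2 * 2 := by norm_num
      rw [h4]; exact this.mul this
    rw [← hu.dvd_mul_left]
    refine ⟨c4 M * (d + a + 2 * b), ?_⟩
    linear_combination (c4 M : ℤ_[p]) * hd + (c4 M : ℤ_[p]) * ha + 2 * (c4 M : ℤ_[p]) * hb - 4 * X * hMsq
  obtain ⟨z, hz⟩ := hX0
  by_cases hc : f4 (c : ZMod 4) = 0
  · -- c even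
    have e4 : FF p c4 M c = f4 ((c : ZMod 4) + 1) * X := by
      rw [FF, hX, mul_sum]
      refine sum_congr rfl fun k _ => ?_
      rcases Nat.even_or_odd k with h | h
      · have h1 := f4_d' (c : ZMod 4) k hc (f4_nat_even h)
        have h2 := f4_nat_even h
        simp only [c4]
        push_cast
        rw [h1, h2]
        push_cast; ring
      · have h1 := f4_d (c : ZMod 4) k hc (f4_nat_odd h)
        simp only [c4]
        push_cast
        rw [h1, h.neg_one_pow]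
        push_cast; ring
    have e5 : c4 c = 0 := hc
    have e6 : c4 (c - M) = - (f4 ((c : ZMod 4) + 1) * c4 M) := by
      have := f4_e (c : ZMod 4) M hc hMne
      simp only [c4]
      push_cast
      exact this
    rw [e4, e5, e6]
    refine ⟨f4 ((c : ZMod 4) + 1) * z, ?_⟩
    push_cast
    linear_combination (f4 ((c : ZMod 4) + 1) : ℤ_[p]) * hz
  · -- c odd
    have hr2 := sum_refl p hM (fun k => (-1) ^ k * (c4 (c - k) : ℤ_[p]))
    have e7 : ∑ k ∈ range M, ((-1) ^ (M - k) * (c4 (c - ((M - k : ℕ) : ℤ)) : ℤ_[p])) * v p k =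
        f4 ((c : ZMod 4) - M + 1) * X := by
      rw [hX, mul_sum]
      refine sum_congr rfl fun k hk => ?_
      rw [mem_range] at hk
      rcases Nat.even_or_odd k with h | h
      · have h1 := f4_f' (c : ZMod 4) M k hc hMne (f4_nat_even h)
        have h2 := f4_nat_even h
        rw [Nat.cast_sub hk.le]
        simp only [c4]
        push_cast
        rw [h1, h2]
        push_cast; ring
      · have h1 := f4_f (c : ZMod 4) M k hc hMne (f4_nat_odd h)
        have h3 : Even (M - k) := Nat.Odd.sub_odd hModd h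
        rw [Nat.cast_sub hk.le, h3.neg_one_pow]
        simp only [c4]
        push_cast
        rw [h1]
        push_cast; ring
    have e8 : ∑ k ∈ range M, ((-1) ^ k * (c4 (c - k) : ℤ_[p])) * v p k = FF p c4 M c := rfl
    rw [e7, e8] at hr2
    obtain ⟨w, hw⟩ := hr2
    obtain ⟨g1, g2⟩ := f4_g (c : ZMod 4) M hc hMne
    have e9 : c4 (c - M) = 0 := by
      simp only [c4]
      push_cast
      exact g1
    have e10 : (c4 c : ℤ_[p]) = f4 ((c : ZMod 4) - M + 1) * c4 M := by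
      have : c4 c = f4 ((c : ZMod 4) - M + 1) * c4 M := by
        simp only [c4]
        exact_mod_cast g2
      exact_mod_cast this
    rw [e9, e10]
    refine ⟨w - f4 ((c : ZMod 4) - M + 1) * z, ?_⟩
    push_cast
    linear_combination hw - (f4 ((c : ZMod 4) - M + 1) : ℤ_[p]) * hz

/-- alternating sums of inverses over an odd multiple of a block -/
theorem alt_block {M : ℕ} (hM : p ∣ M) (hModd : Odd M) (u : ℕ) :
    (M : ℤ_[p]) ∣ ∑ k ∈ range (M * (2 * u + 1)), (-1) ^ k * v p k - ∑ k ∈ range M, (-1) ^ k * v p k := by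
  have key : ∀ m : ℕ, p ∣ m → (M ∣ m) → (M : ℤ_[p]) ∣ ∑ k ∈ range (m + M), (-1) ^ k * v p k -
      (∑ k ∈ range m, (-1) ^ k * v p k + (-1) ^ m * ∑ k ∈ range M, (-1) ^ k * v p k) := by
    intro m hm hMm
    rw [sum_range_add, add_sub_add_left_eq_sub, mul_sum, ← sum_sub_distrib]
    apply dvd_sum
    intro k _
    have := v_add p hm k
    obtain ⟨t, rfl⟩ := hMm
    refine ⟨- t * (-1) ^ (M * t) * (-1) ^ k * (v p k * v p (M * t + k)), ?_⟩
    push_cast at this ⊢
    rw [pow_add]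
    linear_combination (-(-1 : ℤ_[p]) ^ (M * t) * (-1) ^ k) * this
  induction u with
  | zero => simp
  | succ u ih =>
    have hm1 : p ∣ M * (2 * u + 1) := dvd_mul_of_dvd_left hM _
    have h1 := key (M * (2 * u + 1)) hm1 (Dvd.intro _ rfl)
    have h2 := key (M * (2 * u + 2)) (dvd_mul_of_dvd_left hM _) (Dvd.intro _ rfl)
    have e1 : M * (2 * u + 1) + M = M * (2 * u + 2) := by ring
    have e2 : M * (2 * u + 2) + M = M * (2 * (u + 1) + 1) := by ring
    rw [e1] at h1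
    rw [e2] at h2
    have o1 : Odd (M * (2 * u + 1)) := hModd.mul ⟨u, rfl⟩
    have o2 : Even (M * (2 * u + 2)) := ⟨M * (u + 1), by ring⟩
    rw [o1.neg_one_pow] at h1
    rw [o2.neg_one_pow] at h2
    obtain ⟨a, ha⟩ := h1
    obtain ⟨b, hb⟩ := h2
    obtain ⟨d, hd⟩ := ih
    refine ⟨a + b + d, ?_⟩
    linear_combination ha + hb + hd

/-- the Fermat quotient of 2 -/
theorem fermat_two (h2 : p ≠ 2) {n : ℕ} (hn : p ∣ n) (hodd : Odd n) :
    (n : ℤ_[p]) ^ 2 ∣ 2 ^ ((range n).filter (fun j => ¬ p ∣ j)).card -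
      (1 + n * ∑ k ∈ range n, (if k % 2 = 0 then 0 else v p k)) := by
  have hnd : ¬ p ∣ 2 := fun h => h2 ((Nat.prime_dvd_prime_iff_eq hp.out Nat.prime_two).1 h)
  set G : ℕ → ℤ_[p] := fun k => if p ∣ k then 1 else (k : ℤ_[p]) with hG
  have h1 := prod_double n (Nat.odd_iff.1 hodd) G
  have e1 : ∏ j ∈ range n, G (2 * j) =
      2 ^ ((range n).filter (fun j => ¬ p ∣ j)).card * ∏ j ∈ range n, G j := by
    have : ∀ j ∈ range n, G (2 * j) = (if ¬ p ∣ j then 2 else 1) * G j := by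
      intro j _
      simp only [hG]
      by_cases h : p ∣ j
      · rw [if_pos (dvd_mul_of_dvd_right h 2), if_pos h, if_neg (not_not.2 h)]; ring
      · have h' : ¬ p ∣ 2 * j := fun h3 => ((hp.out.dvd_mul).1 h3).elim hnd h
        rw [if_neg h', if_neg h, if_pos h]; push_cast; ring
    rw [prod_congr rfl this, prod_mul_distrib]
    congr 1
    rw [prod_ite, prod_const_one, mul_one, prod_const]
  have e2 : ∏ k ∈ range n, (if k % 2 = 0 then G k else G (k + n)) =
      (∏ k ∈ range n, (1 + n * (if k % 2 = 0 then 0 else v p k))) * ∏ j ∈ range n, G j := by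
    rw [← prod_mul_distrib]
    refine prod_congr rfl fun k _ => ?_
    by_cases h : k % 2 = 0
    · rw [if_pos h, if_pos h]; ring
    · rw [if_neg h, if_neg h]
      simp only [hG]
      by_cases h' : p ∣ k
      · rw [if_pos (dvd_add h' hn), if_pos h', v_dvd p h']; ring
      · have h'' : ¬ p ∣ k + n := by rwa [← Nat.dvd_add_iff_left hn]
        rw [if_neg h'', if_neg h']
        have := mul_v p h'
        push_cast
        linear_combination (-(n : ℤ_[p])) * this
  rw [e1, e2] at h1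
  have hne : ∏ j ∈ range n, G j ≠ 0 := by
    rw [prod_ne_zero_iff]
    intro j _
    simp only [hG]
    split_ifs with h
    · exact one_ne_zero
    · intro h0
      apply h
      have : j = 0 := by exact_mod_cast h0
      rw [this]; exact dvd_zero p
  have h3 := mul_right_cancel₀ hne h1
  rw [h3]
  exact prod_expand (range n) (n : ℤ_[p]) _

end Pool.Agent.H144R3.CB
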