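import Pool.Agent.H144R3.CBBasic

namespace Pool.Agent.H144R3.CB

open Finset

variable (p : ℕ) [hp : Fact p.Prime]

theorem isUnit_two (h2 : p ≠ 2) : IsUnit (2 : ℤ_[p]) := by
  have := isUnit_nat p (k := 2) (by
    intro h
    exact h2 ((Nat.prime_dvd_prime_iff_eq hp.out Nat.prime_two).1 h))
  exact_mod_cast this

/-- sum of inverses over a full interval -/
theorem sum_v_dvd (h2 : p ≠ 2) {m : ℕ} (hm : p ∣ m) : (m : ℤ_[p]) ∣ ∑ k ∈ range m, v p k := by
  have h := two_sum_v p hm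
  have hu := isUnit_two p h2
  rw [← hu.dvd_mul_left, h]
  exact Dvd.intro _ rfl

theorem choose_dvd (N l : ℕ) : (N : ℤ_[p]) ∣ (N.choose l : ℕ) * (l : ℤ_[p]) := by
  cases l with
  | zero => simp
  | succ l =>
    cases N with
    | zero => simp
    | succ N =>
      refine ⟨(N.choose l : ℕ), ?_⟩
      exact_mod_cast (Nat.add_one_mul_choose_eq N l).symm

/-- `C(pa,pb) = C(a,b)` modulo `(pa)^2` for odd `p`. -/
theorem lemmaJ (h2 : p ≠ 2) (a b : ℕ) :
    ((p : ℤ_[p]) * a) ^ 2 ∣ (((p * a).choose (p * b) : ℕ) : ℤ_[p]) - (a.choose b : ℕ) := by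
  have h := choose_mul_mul p a b
  have hodd : Odd p := hp.out.odd_of_ne_two h2
  have heven : (-1 : ℤ_[p]) ^ (p - 1) = 1 := by
    apply Even.neg_one_pow
    obtain ⟨k, hk⟩ := hodd
    exact ⟨k, by omega⟩
  rw [heven, one_pow, one_mul] at h
  obtain ⟨z, hz⟩ := prod_expand (range (p * b)) (p * a : ℤ_[p]) (fun j => - v p j)
  obtain ⟨w, hw⟩ := sum_v_dvd p h2 (m := p * b) (Dvd.intro _ rfl)
  rw [sum_neg_distrib, hw] at hz
  obtain ⟨u, hu⟩ := choose_dvd p a b
  push_cast at hz hw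
  rw [h]
  refine ⟨(a.choose b : ℕ) * z - u * w, ?_⟩
  linear_combination ((a.choose b : ℕ) : ℤ_[p]) * hz - (p : ℤ_[p]) ^ 2 * a * w * hu

/-- alternating sums of binomial coefficients -/
noncomputable def aa (N : ℕ) : ℕ → ℤ_[p]
  | 0 => 0
  | k + 1 => (N.choose k : ℕ) - aa N k

theorem aa_mul (N k : ℕ) : (N : ℤ_[p]) * aa p N k = k * (N.choose k : ℕ) := by
  induction k with
  | zero => simp [aa]
  | succ k ih =>
    rw [aa]
    have := choose_rec p N k
    push_cast
    linear_combination -this - ih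

noncomputable def bb (q k : ℕ) : ℤ_[p] :=
  ∑ l ∈ range q, (if p * l < k then (-1) ^ (k + 1 + p * l) * ((2 * q).choose l : ℕ) else 0)

theorem bb_zero (q : ℕ) : bb p q 0 = 0 := by simp [bb]

theorem bb_succ (q k : ℕ) (hk : k < p * q) : bb p q (k + 1) =
    (if p ∣ k then (((2 * q).choose (k / p) : ℕ) : ℤ_[p]) else 0) - bb p q k := by
  rw [bb, bb, eq_sub_iff_add_eq, ← sum_add_distrib]
  have h1 : ∀ l ∈ range q, ((if p * l < k + 1 then (-1 : ℤ_[p]) ^ (k + 1 + 1 + p * l) * ((2 * q).choose l : ℕ) else 0) +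
      (if p * l < k then (-1 : ℤ_[p]) ^ (k + 1 + p * l) * ((2 * q).choose l : ℕ) else 0)) =
      if p * l = k then (((2 * q).choose (k / p) : ℕ) : ℤ_[p]) else 0 := by
    intro l _
    rcases lt_trichotomy (p * l) k with h | h | h
    · rw [if_pos (by omega), if_pos h, if_neg (by omega)]
      ring
    · rw [if_pos (by omega), if_neg (by omega), if_pos h, ← h, Nat.mul_div_cancel_left _ hp.out.pos]
      have : (-1 : ℤ_[p]) ^ (p * l + 1 + 1 + p * l) = 1 := by
        apply Even.neg_one_pow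
        exact ⟨p * l + 1, by ring⟩
      rw [this, one_mul, add_zero]
    · rw [if_neg (by omega), if_neg (by omega), if_neg (by omega), add_zero]
  rw [sum_congr rfl h1]
  by_cases h : p ∣ k
  · obtain ⟨l, rfl⟩ := h
    rw [if_pos (Dvd.intro _ rfl)]
    rw [sum_eq_single_of_mem l (by
      rw [mem_range]
      exact Nat.lt_of_mul_lt_mul_left hk)]
    · rw [if_pos rfl]
    · intro b _ hb
      rw [if_neg]
      intro h
      exact hb (Nat.eq_of_mul_eq_mul_left hp.out.pos h)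
  · rw [if_neg h]
    apply sum_eq_zero
    intro l _
    rw [if_neg]
    intro h'
    exact h ⟨l, h'.symm⟩

theorem aa_bb (h2 : p ≠ 2) (q k : ℕ) (hk : k ≤ p * q) :
    ((p * q : ℕ) : ℤ_[p]) ∣ aa p (2 * (p * q)) k - bb p q k := by
  induction k with
  | zero => simp [aa, bb_zero]
  | succ k ih =>
    obtain ⟨z, hz⟩ := ih (by omega)
    rw [aa, bb_succ p q k (by omega)]
    have key : ((p * q : ℕ) : ℤ_[p]) ∣ ((2 * (p * q)).choose k : ℕ) -
        (if p ∣ k then (((2 * q).choose (k / p) : ℕ) : ℤ_[p]) else 0) := by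
      by_cases h : p ∣ k
      · obtain ⟨l, rfl⟩ := h
        rw [if_pos (Dvd.intro _ rfl), Nat.mul_div_cancel_left _ hp.out.pos]
        have := lemmaJ p h2 (2 * q) l
        have e : p * (2 * q) = 2 * (p * q) := by ring
        rw [e] at this
        refine dvd_trans ?_ this
        refine ⟨4 * p * q, ?_⟩
        push_cast
        ring
      · rw [if_neg h, sub_zero]
        have h3 := choose_dvd p (2 * (p * q)) k
        have h4 := isUnit_nat p h
        rw [h4.dvd_mul_right] at h3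
        refine dvd_trans ?_ h3
        refine ⟨2, ?_⟩
        push_cast
        ring
    obtain ⟨w, hw⟩ := key
    refine ⟨w - z, ?_⟩
    linear_combination hw - hz

/-- truncated sums with `p`-depleted denominators -/
noncomputable def FF (χ : ℤ → ℤ) (m : ℕ) (c : ℤ) : ℤ_[p] :=
  ∑ k ∈ range m, (-1) ^ k * (χ (c - k) : ℤ_[p]) * v p k

noncomputable def SS (χ : ℤ → ℤ) (n : ℕ) : ℤ :=
  ∑ k ∈ range n, χ ((n : ℤ) - k) * ((2 * n).choose k : ℕ)

theorem choose_split (h2 : p ≠ 2) (q k : ℕ) (hk : k < p * q) :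
    (((p * q : ℕ) : ℤ_[p])) ^ 2 ∣ (((2 * (p * q)).choose k : ℕ) : ℤ_[p]) -
      ((if p ∣ k then (((2 * q).choose (k / p) : ℕ) : ℤ_[p]) else 0) +
        2 * (p * q : ℕ) * (v p k * bb p q k)) := by
  by_cases h : p ∣ k
  · obtain ⟨l, rfl⟩ := h
    rw [if_pos (Dvd.intro _ rfl), Nat.mul_div_cancel_left _ hp.out.pos, v_dvd p (Dvd.intro _ rfl)]
    have := lemmaJ p h2 (2 * q) l
    have e : p * (2 * q) = 2 * (p * q) := by ring
    rw [e] at this
    have h0 : (2 : ℤ_[p]) * (p * q : ℕ) * (0 * bb p q (p * l)) = 0 := by ring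
    rw [h0, add_zero]
    refine dvd_trans ?_ this
    refine ⟨4, ?_⟩
    push_cast
    ring
  · rw [if_neg h, zero_add]
    obtain ⟨z, hz⟩ := aa_bb p h2 q k hk.le
    have h3 := aa_mul p (2 * (p * q)) k
    have h4 := mul_v p h
    refine ⟨2 * v p k * z, ?_⟩
    push_cast at h3 hz ⊢
    linear_combination (-(((2 * (p * q)).choose k : ℕ) : ℤ_[p])) * h4 - v p k * h3 +
      2 * p * q * v p k * hz

end Pool.Agent.H144R3.CB
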