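import Pool.Agent.H144R3.CBMain

namespace Pool.Agent.H144R3.CB

open Finset

variable (p : ℕ) [hp : Fact p.Prime]

/-- inner sum, for a fixed `l` -/
theorem inner_eq (χ : ℤ → ℤ) (q l : ℕ) (hl : l < q) :
    ∑ k ∈ range (p * q), (χ (((p * q : ℕ) : ℤ) - k) : ℤ_[p]) * (v p k *
      (if p * l < k then (-1 : ℤ_[p]) ^ (k + 1 + p * l) * ((2 * q).choose l : ℕ) else 0)) =
    - (((2 * q).choose l : ℕ) : ℤ_[p]) * ∑ k ∈ range (p * (q - l)),
      (-1) ^ k * (χ (((p * (q - l) : ℕ) : ℤ) - k) : ℤ_[p]) * v p (p * l + k) := by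
  have e : p * q = p * l + p * (q - l) := by
    rw [← Nat.mul_add]; congr 1; omega
  rw [e, sum_range_add]
  have h1 : ∑ x ∈ range (p * l), (χ (((p * l + p * (q - l) : ℕ) : ℤ) - x) : ℤ_[p]) * (v p x *
      (if p * l < x then (-1 : ℤ_[p]) ^ (x + 1 + p * l) * ((2 * q).choose l : ℕ) else 0)) = 0 := by
    apply sum_eq_zero
    intro k hk
    rw [mem_range] at hk
    rw [if_neg (by omega)]
    ring
  rw [h1, zero_add, mul_sum]
  refine sum_congr rfl fun k _ => ?_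
  rcases Nat.eq_zero_or_pos k with h | h
  · subst h
    rw [add_zero, v_dvd p (Dvd.intro _ rfl : p ∣ p * l)]
    ring
  · rw [if_pos (by omega)]
    have e2 : (((p * l + p * (q - l) : ℕ) : ℤ) - ((p * l + k : ℕ) : ℤ)) = ((p * (q - l) : ℕ) : ℤ) - k := by
      push_cast; ring
    rw [e2]
    have e3 : (-1 : ℤ_[p]) ^ (p * l + k + 1 + p * l) = - (-1) ^ k := by
      have : p * l + k + 1 + p * l = 2 * (p * l) + k + 1 := by ring
      rw [this, pow_succ, pow_add, pow_mul]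
      norm_num
    rw [e3]
    ring

theorem inner_congr (χ : ℤ → ℤ) (κ : ℤ_[p]) (q l : ℕ) (hl : l < q)
    (hF : ((p * (q - l) : ℕ) : ℤ_[p]) ∣
      FF p χ (p * (q - l)) (p * (q - l) : ℕ) - κ * χ ((p * (q - l) : ℕ))) :
    ((p * q : ℕ) : ℤ_[p]) ∣ (- (((2 * q).choose l : ℕ) : ℤ_[p]) * ∑ k ∈ range (p * (q - l)),
      (-1) ^ k * (χ (((p * (q - l) : ℕ) : ℤ) - k) : ℤ_[p]) * v p (p * l + k)) +
      ((2 * q).choose l : ℕ) * (κ * χ ((p * (q - l) : ℕ))) := by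
  obtain ⟨z, hz⟩ := hF
  have h1 : ∑ k ∈ range (p * (q - l)),
      (-1) ^ k * (χ (((p * (q - l) : ℕ) : ℤ) - k) : ℤ_[p]) * v p (p * l + k) =
      FF p χ (p * (q - l)) (p * (q - l) : ℕ) - (p * l : ℕ) * ∑ k ∈ range (p * (q - l)),
        (-1) ^ k * (χ (((p * (q - l) : ℕ) : ℤ) - k) : ℤ_[p]) * (v p k * v p (p * l + k)) := by
    rw [FF, mul_sum, ← sum_sub_distrib]
    refine sum_congr rfl fun k _ => ?_
    have := v_add p (Dvd.intro _ rfl : p ∣ p * l) k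
    linear_combination (-(-1 : ℤ_[p]) ^ k * (χ (((p * (q - l) : ℕ) : ℤ) - k) : ℤ_[p])) * this
  rw [h1]
  set Z := ∑ k ∈ range (p * (q - l)),
        (-1) ^ k * (χ (((p * (q - l) : ℕ) : ℤ) - k) : ℤ_[p]) * (v p k * v p (p * l + k)) with hZ
  have h2 := aa_mul p (2 * q) l
  have h3 : ((p * (q - l) : ℕ) : ℤ_[p]) = p * (q - l) := by
    push_cast [Nat.cast_sub hl.le]; rfl
  rw [h3] at hz
  refine ⟨2 * aa p (2 * q) l * Z - (((2 * q).choose l : ℕ) - 2 * aa p (2 * q) l) * z, ?_⟩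
  push_cast at h2 hz ⊢
  linear_combination (-(((2 * q).choose l : ℕ) : ℤ_[p])) * hz - (p * Z + p * z) * h2

theorem main (h2 : p ≠ 2) (χ : ℤ → ℤ) (ε : ℤ) (hχ : ∀ x, χ (p * x) = ε * χ x) (κ : ℤ_[p]) (q : ℕ)
    (hF : ∀ l < q, ((p * (q - l) : ℕ) : ℤ_[p]) ∣
      FF p χ (p * (q - l)) (p * (q - l) : ℕ) - κ * χ ((p * (q - l) : ℕ))) :
    ((p * q : ℕ) : ℤ_[p]) ^ 2 ∣ (SS χ (p * q) : ℤ_[p]) - ε * (1 - 2 * κ * (p * q : ℕ)) * SS χ q := by
  -- step 1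
  have s1 : ((p * q : ℕ) : ℤ_[p]) ^ 2 ∣ (SS χ (p * q) : ℤ_[p]) -
      (∑ k ∈ range (p * q), (χ (((p * q : ℕ) : ℤ) - k) : ℤ_[p]) *
        (if p ∣ k then (((2 * q).choose (k / p) : ℕ) : ℤ_[p]) else 0) +
      2 * (p * q : ℕ) * ∑ k ∈ range (p * q), (χ (((p * q : ℕ) : ℤ) - k) : ℤ_[p]) * (v p k * bb p q k)) := by
    rw [SS, Int.cast_sum, mul_sum, ← sum_add_distrib, ← sum_sub_distrib]
    apply dvd_sum
    intro k hk
    rw [mem_range] at hk
    obtain ⟨z, hz⟩ := choose_split p h2 q k hk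
    refine ⟨(χ (((p * q : ℕ) : ℤ) - k) : ℤ_[p]) * z, ?_⟩
    rw [Int.cast_mul, Int.cast_natCast]
    linear_combination (χ (((p * q : ℕ) : ℤ) - k) : ℤ_[p]) * hz
  have s2 : ∑ k ∈ range (p * q), (χ (((p * q : ℕ) : ℤ) - k) : ℤ_[p]) *
        (if p ∣ k then (((2 * q).choose (k / p) : ℕ) : ℤ_[p]) else 0) = ε * SS χ q := by
    have e1 : ∀ k ∈ range (p * q), (χ (((p * q : ℕ) : ℤ) - k) : ℤ_[p]) *
        (if p ∣ k then (((2 * q).choose (k / p) : ℕ) : ℤ_[p]) else 0) =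
        (if p ∣ k then (χ (((p * q : ℕ) : ℤ) - k) : ℤ_[p]) *
          (((2 * q).choose (k / p) : ℕ) : ℤ_[p]) else 0) := by
      intro k _
      split_ifs <;> simp
    rw [sum_congr rfl e1, sum_range_mul_ite p q hp.out.pos (fun k => (χ (((p * q : ℕ) : ℤ) - k) : ℤ_[p]) *
          (((2 * q).choose (k / p) : ℕ) : ℤ_[p])), SS, Int.cast_sum, mul_sum]
    refine sum_congr rfl fun i _ => ?_
    rw [Nat.mul_div_cancel_left _ hp.out.pos]
    have : (((p * q : ℕ) : ℤ) - ((p * i : ℕ) : ℤ)) = p * ((q : ℤ) - i) := by push_cast; ring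
    rw [this, hχ]
    push_cast; ring
  have s3 : ∑ k ∈ range (p * q), (χ (((p * q : ℕ) : ℤ) - k) : ℤ_[p]) * (v p k * bb p q k) =
      ∑ l ∈ range q, (- (((2 * q).choose l : ℕ) : ℤ_[p]) * ∑ k ∈ range (p * (q - l)),
      (-1) ^ k * (χ (((p * (q - l) : ℕ) : ℤ) - k) : ℤ_[p]) * v p (p * l + k)) := by
    have e1 : ∀ l ∈ range q, (- (((2 * q).choose l : ℕ) : ℤ_[p]) * ∑ k ∈ range (p * (q - l)),
      (-1) ^ k * (χ (((p * (q - l) : ℕ) : ℤ) - k) : ℤ_[p]) * v p (p * l + k)) =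
      ∑ k ∈ range (p * q), (χ (((p * q : ℕ) : ℤ) - k) : ℤ_[p]) * (v p k *
      (if p * l < k then (-1 : ℤ_[p]) ^ (k + 1 + p * l) * ((2 * q).choose l : ℕ) else 0)) := by
      intro l hl
      rw [mem_range] at hl
      exact (inner_eq p χ q l hl).symm
    rw [sum_congr rfl e1, sum_comm]
    refine sum_congr rfl fun k _ => ?_
    rw [bb, mul_sum, mul_sum]
  have s4 : ((p * q : ℕ) : ℤ_[p]) ∣ (∑ l ∈ range q, (- (((2 * q).choose l : ℕ) : ℤ_[p]) *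
      ∑ k ∈ range (p * (q - l)),
      (-1) ^ k * (χ (((p * (q - l) : ℕ) : ℤ) - k) : ℤ_[p]) * v p (p * l + k))) +
      ∑ l ∈ range q, ((2 * q).choose l : ℕ) * (κ * χ ((p * (q - l) : ℕ))) := by
    rw [← sum_add_distrib]
    apply dvd_sum
    intro l hl
    rw [mem_range] at hl
    exact inner_congr p χ κ q l hl (hF l hl)
  have s5 : ∑ l ∈ range q, (((2 * q).choose l : ℕ) : ℤ_[p]) * (κ * χ ((p * (q - l) : ℕ))) =
      κ * ε * SS χ q := by
    rw [SS, Int.cast_sum, mul_sum]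
    refine sum_congr rfl fun l hl => ?_
    rw [mem_range] at hl
    have : ((p * (q - l) : ℕ) : ℤ) = p * ((q : ℤ) - l) := by
      push_cast [Nat.cast_sub hl.le]; rfl
    rw [this, hχ]
    push_cast; ring
  rw [s5, ← s3] at s4
  rw [s2] at s1
  obtain ⟨z, hz⟩ := s1
  obtain ⟨w, hw⟩ := s4
  refine ⟨z + 2 * w, ?_⟩
  linear_combination hz + 2 * ((p * q : ℕ) : ℤ_[p]) * hw

/-! Block decomposition of `FF`. -/

theorem FF_block (χ : ℤ → ℤ) (κ : ℤ_[p]) (M : ℕ) (hM : p ∣ M) (hModd : Odd M)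
    (hb : ∀ c : ℤ, (p : ℤ) ∣ c → (M : ℤ_[p]) ∣ FF p χ M c - κ * (χ c + χ (c - M)))
    (u : ℕ) (c : ℤ) (hc : (p : ℤ) ∣ c) :
    (M : ℤ_[p]) ∣ FF p χ (M * u) c - κ * (χ c - (-1) ^ u * χ (c - M * u)) := by
  induction u with
  | zero => simp [FF]
  | succ u ih =>
    have hMu : p ∣ M * u := dvd_mul_of_dvd_left hM u
    have hc' : (p : ℤ) ∣ c - M * u := by
      apply dvd_sub hc
      exact_mod_cast hMu
    have e1 : FF p χ (M * (u + 1)) c = FF p χ (M * u) c +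
        ((-1) ^ u * FF p χ M (c - M * u) - (M * u : ℕ) * ∑ k ∈ range M,
          (-1) ^ u * ((-1) ^ k * (χ (c - M * u - k) : ℤ_[p]) * (v p k * v p (M * u + k)))) := by
      rw [FF, Nat.mul_succ, sum_range_add, ← FF, add_right_inj, FF, mul_sum, mul_sum, ← sum_sub_distrib]
      refine sum_congr rfl fun k _ => ?_
      have h3 := v_add p hMu k
      have h4 : (-1 : ℤ_[p]) ^ (M * u + k) = (-1) ^ u * (-1) ^ k := by
        rw [pow_add, pow_mul, hModd.neg_one_pow]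
      have h5 : c - ((M * u + k : ℕ) : ℤ) = c - M * u - k := by push_cast; ring
      rw [h4, h5]
      linear_combination (-(-1 : ℤ_[p]) ^ u * (-1) ^ k * (χ (c - M * u - k) : ℤ_[p])) * h3
    obtain ⟨z, hz⟩ := ih
    obtain ⟨w, hw⟩ := hb _ hc'
    rw [e1]
    have h6 : c - M * u - M = c - M * ((u : ℤ) + 1) := by ring
    rw [h6] at hw
    refine ⟨z + (-1) ^ u * w - u * ∑ k ∈ range M,
          (-1) ^ u * ((-1) ^ k * (χ (c - M * u - k) : ℤ_[p]) * (v p k * v p (M * u + k))), ?_⟩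
    push_cast
    rw [pow_succ]
    linear_combination hz + (-1) ^ u * hw

end Pool.Agent.H144R3.CB
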