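import Pool.Agent.H144R3.CBChar
import Pool.Agent.H144R3.CBSums

namespace Pool.Agent.H144R3.CB

open Finset

instance fact2 : Fact (Nat.Prime 2) := ⟨Nat.prime_two⟩

theorem J2 (a b : ℕ) : (2 * (a : ℤ_[2]) ^ 2) ∣ (((2 * a).choose (2 * b) : ℕ) : ℤ_[2]) -
    (-1) ^ b * (a.choose b : ℕ) := by
  have h := choose_mul_mul 2 a b
  norm_num at h
  obtain ⟨z, hz⟩ := prod_expand (range (2 * b)) (2 * a : ℤ_[2]) (fun j => - v 2 j)
  have h2 := two_sum_v 2 (m := 2 * b) (Dvd.intro _ rfl)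
  set Z := ∑ k ∈ range (2 * b + 1), v 2 k * v 2 (2 * b - k) with hZ
  have h3 : ∑ k ∈ range (2 * b), v 2 k = b * Z := by
    have : (2 : ℤ_[2]) ≠ 0 := two_ne_zero
    apply mul_left_cancel₀ this
    rw [h2]; push_cast; ring
  rw [sum_neg_distrib, h3] at hz
  obtain ⟨u, hu⟩ := choose_dvd 2 a b
  have h' : (((2 * a).choose (2 * b) : ℕ) : ℤ_[2]) = (-1) ^ b * (a.choose b : ℕ) *
      ∏ x ∈ range (2 * b), (1 + 2 * (a : ℤ_[2]) * (- v 2 x)) := by
    rw [h]
    congr 1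
    refine prod_congr rfl fun x _ => ?_
    ring
  rw [h']
  refine ⟨(-1) ^ b * (2 * (a.choose b : ℕ) * z - u * Z), ?_⟩
  linear_combination ((-1) ^ b * ((a.choose b : ℕ) : ℤ_[2])) * hz - 2 * (-1) ^ b * a * Z * hu

theorem two_dvd_choose_odd (a k : ℕ) (hk : ¬ 2 ∣ k) :
    (2 * (a : ℤ_[2])) ∣ (((2 * a).choose k : ℕ) : ℤ_[2]) := by
  have h3 := choose_dvd 2 (2 * a) k
  rw [(isUnit_nat 2 hk).dvd_mul_right] at h3
  push_cast at h3
  exact h3

noncomputable def b2 (L a k : ℕ) : ℤ_[2] :=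
  ∑ l ∈ range L, (if 2 * l < k then (-1 : ℤ_[2]) ^ (k + 1 + l) * (a.choose l : ℕ) else 0)

theorem b2_succ (L a k : ℕ) (hk : k < 2 * L) : b2 L a (k + 1) =
    (if 2 ∣ k then (-1 : ℤ_[2]) ^ (k / 2) * ((a.choose (k / 2) : ℕ) : ℤ_[2]) else 0) - b2 L a k := by
  rw [b2, b2, eq_sub_iff_add_eq, ← sum_add_distrib]
  have h1 : ∀ l ∈ range L, ((if 2 * l < k + 1 then (-1 : ℤ_[2]) ^ (k + 1 + 1 + l) * (a.choose l : ℕ) else 0) +
      (if 2 * l < k then (-1 : ℤ_[2]) ^ (k + 1 + l) * (a.choose l : ℕ) else 0)) =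
      if 2 * l = k then (-1 : ℤ_[2]) ^ (k / 2) * ((a.choose (k / 2) : ℕ) : ℤ_[2]) else 0 := by
    intro l _
    rcases lt_trichotomy (2 * l) k with h | h | h
    · rw [if_pos (by omega), if_pos h, if_neg (by omega)]
      ring
    · rw [if_pos (by omega), if_neg (by omega), if_pos h, ← h, Nat.mul_div_cancel_left _ (by norm_num)]
      have : (-1 : ℤ_[2]) ^ (2 * l + 1 + 1 + l) = (-1) ^ l := by
        have : 2 * l + 1 + 1 + l = 2 * (l + 1) + l := by ring
        rw [this, pow_add, pow_mul]; norm_num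
      rw [this, add_zero]
    · rw [if_neg (by omega), if_neg (by omega), if_neg (by omega), add_zero]
  rw [sum_congr rfl h1]
  by_cases h : 2 ∣ k
  · obtain ⟨l, rfl⟩ := h
    rw [if_pos (Dvd.intro _ rfl)]
    rw [sum_eq_single_of_mem l (by
      rw [mem_range]; omega)]
    · rw [if_pos rfl]
    · intro b _ hb
      rw [if_neg]
      omega
  · rw [if_neg h]
    apply sum_eq_zero
    intro l _
    rw [if_neg]
    omega

theorem a2_b2 (L a k : ℕ) (hk : k ≤ 2 * L) : (2 * (a : ℤ_[2])) ∣ aa 2 (2 * a) k - b2 L a k := by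
  induction k with
  | zero => simp [aa, b2]
  | succ k ih =>
    obtain ⟨z, hz⟩ := ih (by omega)
    rw [aa, b2_succ L a k (by omega)]
    have key : (2 * (a : ℤ_[2])) ∣ (((2 * a).choose k : ℕ) : ℤ_[2]) -
        (if 2 ∣ k then (-1 : ℤ_[2]) ^ (k / 2) * ((a.choose (k / 2) : ℕ) : ℤ_[2]) else 0) := by
      by_cases h : 2 ∣ k
      · obtain ⟨l, rfl⟩ := h
        rw [if_pos (Dvd.intro _ rfl), Nat.mul_div_cancel_left _ (by norm_num)]
        refine dvd_trans ?_ (J2 a l)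
        exact ⟨a, by ring⟩
      · rw [if_neg h, sub_zero]
        exact two_dvd_choose_odd a k h
    obtain ⟨w, hw⟩ := key
    refine ⟨w - z, ?_⟩
    linear_combination hw - hz

/-- `G m c = ∑_{k<m, k odd} χ₃(c-k)/k` -/
noncomputable def GG (m : ℕ) (c : ℤ) : ℤ_[2] := ∑ k ∈ range m, (c3 (c - k) : ℤ_[2]) * v 2 k

theorem c3_neg (x : ℤ) : c3 (-x) = - c3 x := by
  simp only [c3, Int.cast_neg, f3_neg]

theorem isUnit_three2 : IsUnit (3 : ℤ_[2]) := by
  have := isUnit_nat 2 (k := 3) (by norm_num)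
  exact_mod_cast this

theorem lemmaZ (m : ℕ) (h2 : 2 ∣ m) (h3 : 3 ∣ m) :
    (m : ℤ_[2]) ∣ ∑ k ∈ range m, (c3 k : ℤ_[2]) * v 2 k := by
  induction m using Nat.strong_induction_on with
  | _ m ih =>
    rcases Nat.eq_zero_or_pos m with h | h
    · subst h; simp
    obtain ⟨m', rfl⟩ := h3
    have h2' : 2 ∣ m' := by
      rcases (Nat.prime_two.dvd_mul).1 h2 with h | h
      · norm_num at h
      · exact h
    have h22 : 2 ∣ m' + m' := dvd_add h2' h2'
    have e : 3 * m' = m' + m' + m' := by ring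
    have hun : ((3 * m' : ℕ) : ℤ_[2]) = 3 * (m' : ℤ_[2]) := by push_cast; ring
    rw [hun, isUnit_three2.mul_left_dvd, e, sum_range_add, sum_range_add]
    have key : (m' : ℤ_[2]) ∣ (∑ k ∈ range m', (c3 k : ℤ_[2]) * v 2 k +
        ∑ x ∈ range m', (c3 ((m' + x : ℕ) : ℤ) : ℤ_[2]) * v 2 (m' + x) +
        ∑ x ∈ range m', (c3 ((m' + m' + x : ℕ) : ℤ) : ℤ_[2]) * v 2 (m' + m' + x)) -
        ∑ k ∈ range m', ((c3 k + c3 ((m' + k : ℕ) : ℤ) + c3 ((m' + m' + k : ℕ) : ℤ) : ℤ) : ℤ_[2]) * v 2 k := by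
      rw [← sum_add_distrib, ← sum_add_distrib, ← sum_sub_distrib]
      apply dvd_sum
      intro k _
      have a1 := v_add 2 h2' k
      have a2 := v_add 2 h22 k
      refine ⟨- (c3 ((m' + k : ℕ) : ℤ) : ℤ_[2]) * (v 2 k * v 2 (m' + k)) -
        2 * (c3 ((m' + m' + k : ℕ) : ℤ) : ℤ_[2]) * (v 2 k * v 2 (m' + m' + k)), ?_⟩
      push_cast at a2 ⊢
      linear_combination (- (c3 ((m' : ℤ) + k) : ℤ_[2])) * a1 - (c3 ((m' : ℤ) + m' + k) : ℤ_[2]) * a2
    have key2 : (m' : ℤ_[2]) ∣ ∑ k ∈ range m',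
        ((c3 k + c3 ((m' + k : ℕ) : ℤ) + c3 ((m' + m' + k : ℕ) : ℤ) : ℤ) : ℤ_[2]) * v 2 k := by
      by_cases h3' : 3 ∣ m'
      · have e0 : (m' : ZMod 3) = 0 := by rwa [ZMod.natCast_eq_zero_iff]
        have e1 : ∀ k ∈ range m', ((c3 k + c3 ((m' + k : ℕ) : ℤ) + c3 ((m' + m' + k : ℕ) : ℤ) : ℤ) : ℤ_[2]) * v 2 k =
            3 * ((c3 k : ℤ_[2]) * v 2 k) := by
          intro k _
          have : c3 k + c3 ((m' + k : ℕ) : ℤ) + c3 ((m' + m' + k : ℕ) : ℤ) = 3 * c3 k := by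
            simp only [c3]
            push_cast
            rw [e0]
            simp only [zero_add]
            ring
          rw [this]; push_cast; ring
        rw [sum_congr rfl e1, ← mul_sum]
        exact dvd_mul_of_dvd_right (ih m' (by omega) h2' h3') _
      · have e0 : (m' : ZMod 3) ≠ 0 := by
          intro h; rw [ZMod.natCast_eq_zero_iff] at h; exact h3' h
        have e1 : ∀ k ∈ range m', ((c3 k + c3 ((m' + k : ℕ) : ℤ) + c3 ((m' + m' + k : ℕ) : ℤ) : ℤ) : ℤ_[2]) * v 2 k = 0 := by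
          intro k _
          have := f3_sum ((m' : ZMod 3) + k) m' e0
          have e2 : c3 k + c3 ((m' + k : ℕ) : ℤ) + c3 ((m' + m' + k : ℕ) : ℤ) = 0 := by
            simp only [c3]
            push_cast
            rw [← this]
            congr 2
            · congr 1; ring
            · ring
          rw [e2]; simp
        rw [sum_congr rfl e1]
        simp
    have := dvd_add key key2
    rwa [sub_add_cancel] at this

theorem GG_rel (m : ℕ) (h2 : 2 ∣ m) : (m : ℤ_[2]) ∣ GG (2 * m) ((2 * m : ℕ) : ℤ) + GG m m := by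
  have e : 2 * m = m + m := by ring
  -- reflection
  have hr := sum_refl 2 h2 (fun k => (c3 (m - k) : ℤ_[2]))
  have hr2 : ∑ k ∈ range m, (c3 ((m : ℤ) - ((m - k : ℕ) : ℤ)) : ℤ_[2]) * v 2 k =
      ∑ k ∈ range m, (c3 k : ℤ_[2]) * v 2 k := by
    refine sum_congr rfl fun k hk => ?_
    rw [mem_range] at hk
    rw [Nat.cast_sub hk.le]
    congr 3; ring
  rw [hr2] at hr
  have h1 : (m : ℤ_[2]) ∣ GG (2 * m) ((2 * m : ℕ) : ℤ) -
      ∑ k ∈ range m, ((c3 (2 * m - k) + c3 (m - k) : ℤ) : ℤ_[2]) * v 2 k := by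
    rw [GG, e, sum_range_add, ← sum_add_distrib, ← sum_sub_distrib]
    apply dvd_sum
    intro k _
    have a1 := v_add 2 h2 k
    have e1 : ((m + m : ℕ) : ℤ) - ((m + k : ℕ) : ℤ) = m - k := by push_cast; ring
    have e2 : ((m + m : ℕ) : ℤ) - k = 2 * m - k := by push_cast; ring
    rw [e1, e2]
    refine ⟨- (c3 ((m : ℤ) - k) : ℤ_[2]) * (v 2 k * v 2 (m + k)), ?_⟩
    push_cast
    linear_combination (- (c3 ((m : ℤ) - k) : ℤ_[2])) * a1
  have hG : GG m m = ∑ k ∈ range m, (c3 (m - k) : ℤ_[2]) * v 2 k := rfl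
  rw [← hG] at hr
  by_cases h3 : 3 ∣ m
  · have e0 : (m : ZMod 3) = 0 := by rwa [ZMod.natCast_eq_zero_iff]
    have hz := lemmaZ m h2 h3
    have e1 : ∑ k ∈ range m, ((c3 (2 * m - k) + c3 (m - k) : ℤ) : ℤ_[2]) * v 2 k =
        -2 * ∑ k ∈ range m, (c3 k : ℤ_[2]) * v 2 k := by
      rw [mul_sum]
      refine sum_congr rfl fun k _ => ?_
      have : c3 (2 * m - k) + c3 (m - k) = -2 * c3 k := by
        simp only [c3]
        push_cast
        rw [e0]
        simp only [mul_zero, zero_sub, f3_neg]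
        ring
      rw [this]; push_cast; ring
    rw [e1] at h1
    obtain ⟨a, ha⟩ := h1
    obtain ⟨b, hb⟩ := hr
    obtain ⟨d, hd⟩ := hz
    refine ⟨a + b - 3 * d, ?_⟩
    linear_combination ha + hb - 3 * hd
  · have e0 : (m : ZMod 3) ≠ 0 := by
      intro h; rw [ZMod.natCast_eq_zero_iff] at h; exact h3 h
    have e1 : ∑ k ∈ range m, ((c3 (2 * m - k) + c3 (m - k) : ℤ) : ℤ_[2]) * v 2 k =
        ∑ k ∈ range m, (c3 k : ℤ_[2]) * v 2 k := by
      refine sum_congr rfl fun k _ => ?_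
      have : c3 (2 * m - k) + c3 (m - k) = c3 k := by
        have h5 := f3_sum ((m : ZMod 3) - k) m e0
        have h6 := f3_neg (k : ZMod 3)
        simp only [c3]
        push_cast
        have e2 : (m : ZMod 3) - k - m = -k := by ring
        have e3 : (m : ZMod 3) - k + m = 2 * m - k := by ring
        rw [e2, e3, h6] at h5
        linarith
      rw [this]
    rw [e1] at h1
    obtain ⟨a, ha⟩ := h1
    obtain ⟨b, hb⟩ := hr
    refine ⟨a + b, ?_⟩
    linear_combination ha + hb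

end Pool.Agent.H144R3.CB
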